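import Mathlib

set_option autoImplicit false

/-!
# The fixed genus chord swap chain: definitions
-/

namespace Pool.Agent.CSWAP

/-- The number of vertex classes of the `2 n`-gon after gluing the sides by `σ`: the chord
joining the sides `x` and `σ x` identifies the vertex `x` with the vertex `σ x + 1`. -/
noncomputable def numVert {n : ℕ} (σ : Equiv.Perm (Fin (2 * n))) : ℕ :=
  Nat.card (Quot fun a b : Fin (2 * n) => b = finRotate (2 * n) (σ a))

/-- `Ω_{n,g}`: the perfect matchings of the `2 n` sides, written as involutions without fixed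
points, of genus `g`. -/
def Omega (n g : ℕ) : Type :=
  {σ : Equiv.Perm (Fin (2 * n)) // (∀ x, σ (σ x) = x) ∧ (∀ x, σ x ≠ x) ∧
    numVert σ + 2 * g = n + 1}

/-- `Y` is a chord swap of `X`: the chords `{A, B}`, `{C, D}` of `X` are replaced by `{A, C}`,
`{B, D}`. -/
def IsSwap {n : ℕ} (X Y : Equiv.Perm (Fin (2 * n))) : Prop :=
  ∃ A B C D : Fin (2 * n), [A, B, C, D].Nodup ∧ X A = B ∧ X C = D ∧ Y A = C ∧ Y B = D ∧
    ∀ z, z ≠ A → z ≠ B → z ≠ C → z ≠ D → Y z = X z

noncomputable instance (n g : ℕ) : Fintype (Omega n g) := by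
  classical
  unfold Omega
  infer_instance

open scoped Classical in
/-- The kernel of the fixed genus chord swap chain. -/
noncomputable def P (n g : ℕ) : Matrix (Omega n g) (Omega n g) ℝ := fun X Y =>
  if X = Y then
    1 - ∑ Z : Omega n g, if Z ≠ X ∧ IsSwap X.1 Z.1 then 1 / (4 * (n.choose 2 : ℝ)) else 0
  else if IsSwap X.1 Y.1 then 1 / (4 * (n.choose 2 : ℝ)) else 0

/-- The spectral gap `1 - λ₂`; `λ₂` is the largest eigenvalue of `P` with an eigenvector
orthogonal to the constant functions. -/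
noncomputable def gap (n g : ℕ) : ℝ :=
  1 - sSup {μ : ℝ | ∃ f : Omega n g → ℝ, f ≠ 0 ∧ ∑ X, f X = 0 ∧ (P n g).mulVec f = μ • f}

end Pool.Agent.CSWAP
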