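import Pool.Agent.CSWAP.Defs

set_option autoImplicit false

/-!
# Upper bounds for the spectral gap of the fixed genus chord swap chain
-/

namespace Pool.Agent.CSWAP

section Abstract

/-! ### A finite weighted graph -/

variable {Ω : Type} [Fintype Ω]

/-- the operator with the weights `w` -/
noncomputable def Q (w : Ω → Ω → ℝ) (f : Ω → ℝ) : Ω → ℝ :=
  fun X => f X - ∑ Y, w X Y * (f X - f Y)

lemma dirichlet (w : Ω → Ω → ℝ) (hw : ∀ X Y, w X Y = w Y X) (f : Ω → ℝ) :
    ∑ X, f X * Q w f X = ∑ X, f X ^ 2 - (1 / 2) * ∑ X, ∑ Y, w X Y * (f X - f Y) ^ 2 := by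
  have h1 : ∑ X, ∑ Y, w X Y * (f X - f Y) ^ 2
      = ∑ X, ∑ Y, w X Y * (f X - f Y) * f X - ∑ X, ∑ Y, w X Y * (f X - f Y) * f Y := by
    rw [← Finset.sum_sub_distrib]
    refine Finset.sum_congr rfl fun X _ => ?_
    rw [← Finset.sum_sub_distrib]
    exact Finset.sum_congr rfl fun Y _ => by ring
  have h2 : ∑ X, ∑ Y, w X Y * (f X - f Y) * f Y = - ∑ X, ∑ Y, w X Y * (f X - f Y) * f X := by
    rw [Finset.sum_comm, ← Finset.sum_neg_distrib]
    refine Finset.sum_congr rfl fun X _ => ?_
    rw [← Finset.sum_neg_distrib]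
    exact Finset.sum_congr rfl fun Y _ => by rw [hw Y X]; ring
  have h3 : ∑ X, f X * Q w f X = ∑ X, f X ^ 2 - ∑ X, ∑ Y, w X Y * (f X - f Y) * f X := by
    rw [← Finset.sum_sub_distrib]
    refine Finset.sum_congr rfl fun X _ => ?_
    rw [Q, mul_sub, Finset.mul_sum, sq]
    congr 1
    exact Finset.sum_congr rfl fun Y _ => by ring
  rw [h3, h1, h2]
  ring

lemma sum_Q (w : Ω → Ω → ℝ) (hw : ∀ X Y, w X Y = w Y X) (f : Ω → ℝ) :
    ∑ X, Q w f X = ∑ X, f X := by
  have h2 : ∑ X, ∑ Y, w X Y * (f X - f Y) = - ∑ X, ∑ Y, w X Y * (f X - f Y) := by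
    conv_lhs => rw [Finset.sum_comm]
    rw [← Finset.sum_neg_distrib]
    refine Finset.sum_congr rfl fun X _ => ?_
    rw [← Finset.sum_neg_distrib]
    exact Finset.sum_congr rfl fun Y _ => by rw [hw Y X]; ring
  have h3 : ∑ X, ∑ Y, w X Y * (f X - f Y) = 0 := by linarith
  simp only [Q]
  rw [Finset.sum_sub_distrib, h3, sub_zero]

lemma symm_Q (w : Ω → Ω → ℝ) (hw : ∀ X Y, w X Y = w Y X) (f g : Ω → ℝ) :
    ∑ X, Q w f X * g X = ∑ X, f X * Q w g X := by
  have h : ∀ f g : Ω → ℝ, ∑ X, Q w f X * g X =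
      ∑ X, f X * g X - ∑ X, (∑ Y, w X Y) * (f X * g X) + ∑ X, ∑ Y, w X Y * (f Y * g X) := by
    intro f g
    rw [← Finset.sum_sub_distrib, ← Finset.sum_add_distrib]
    refine Finset.sum_congr rfl fun X _ => ?_
    simp only [Q]
    have : ∑ Y, w X Y * (f X - f Y) = (∑ Y, w X Y) * f X - ∑ Y, w X Y * f Y := by
      rw [Finset.sum_mul, ← Finset.sum_sub_distrib]
      exact Finset.sum_congr rfl fun Y _ => by ring
    rw [this]
    have h2 : ∑ Y, w X Y * (f Y * g X) = (∑ Y, w X Y * f Y) * g X := by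
      rw [Finset.sum_mul]
      exact Finset.sum_congr rfl fun Y _ => by ring
    rw [h2]
    ring
  have h4 : ∑ X, f X * Q w g X = ∑ X, Q w g X * f X :=
    Finset.sum_congr rfl fun X _ => mul_comm _ _
  rw [h4, h f g, h g f]
  have h5 : ∑ X, ∑ Y, w X Y * (f Y * g X) = ∑ X, ∑ Y, w X Y * (g Y * f X) := by
    rw [Finset.sum_comm]
    refine Finset.sum_congr rfl fun X _ => Finset.sum_congr rfl fun Y _ => ?_
    rw [hw Y X]; ring
  rw [h5]
  have h6 : ∑ X, f X * g X = ∑ X, g X * f X := Finset.sum_congr rfl fun X _ => mul_comm _ _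
  have h7 : ∑ X, (∑ Y, w X Y) * (f X * g X) = ∑ X, (∑ Y, w X Y) * (g X * f X) :=
    Finset.sum_congr rfl fun X _ => by ring
  rw [h6, h7]

/-- a test function bounds an eigenvalue from below -/
lemma exists_eigen (w : Ω → Ω → ℝ) (hw : ∀ X Y, w X Y = w Y X) (hw0 : ∀ X Y, 0 ≤ w X Y)
    (f : Ω → ℝ) (hf : f ≠ 0) (hs : ∑ X, f X = 0) (r : ℝ)
    (hr : r * ∑ X, f X ^ 2 ≤ ∑ X, f X * Q w f X) :
    ∃ μ : ℝ, r ≤ μ ∧ ∃ h : Ω → ℝ, h ≠ 0 ∧ ∑ X, h X = 0 ∧ Q w h = μ • h := by
  classical
  let T : EuclideanSpace ℝ Ω →ₗ[ℝ] EuclideanSpace ℝ Ω :=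
    { toFun := fun h => WithLp.toLp 2 (Q w h.ofLp)
      map_add' := by
        intro a b
        ext X
        simp only [Q, PiLp.add_apply]
        rw [show (∑ Y, w X Y * (a.ofLp X + b.ofLp X - (a.ofLp Y + b.ofLp Y)))
          = (∑ Y, w X Y * (a.ofLp X - a.ofLp Y)) + ∑ Y, w X Y * (b.ofLp X - b.ofLp Y) from by
            rw [← Finset.sum_add_distrib]
            exact Finset.sum_congr rfl fun Y _ => by ring]
        ring
      map_smul' := by
        intro c a
        ext X
        simp only [Q, PiLp.smul_apply, smul_eq_mul, RingHom.id_apply]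
        rw [mul_sub, Finset.mul_sum]
        congr 1
        exact Finset.sum_congr rfl fun Y _ => by ring }
  let V0 : Submodule ℝ (EuclideanSpace ℝ Ω) :=
    { carrier := {h | ∑ X, h.ofLp X = 0}
      add_mem' := by
        intro a b ha hb
        simp only [Set.mem_ofPred_eq, WithLp.ofLp_add, Pi.add_apply, Finset.sum_add_distrib] at *
        rw [ha, hb, add_zero]
      zero_mem' := by simp
      smul_mem' := by
        intro c a ha
        simp only [Set.mem_ofPred_eq, WithLp.ofLp_smul, Pi.smul_apply, smul_eq_mul] at *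
        rw [← Finset.mul_sum, ha, mul_zero] }
  have hTV : ∀ v ∈ V0, T v ∈ V0 := by
    intro v hv
    change ∑ X, Q w v.ofLp X = 0
    rw [sum_Q w hw]
    exact hv
  have hinner : ∀ a b : EuclideanSpace ℝ Ω, inner ℝ a b = ∑ X, a.ofLp X * b.ofLp X := by
    intro a b
    rw [PiLp.inner_apply]
    exact Finset.sum_congr rfl fun X _ => by simp [mul_comm]
  have hsym : T.IsSymmetric := by
    intro a b
    rw [hinner, hinner]
    exact symm_Q w hw a.ofLp b.ofLp
  have hsym0 : (T.restrict hTV).IsSymmetric := hsym.restrict_invariant hTV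
  let f0 : V0 := ⟨WithLp.toLp 2 f, hs⟩
  have hf0 : f0 ≠ 0 := by
    intro h
    apply hf
    have := congrArg (fun v : V0 => (v : EuclideanSpace ℝ Ω).ofLp) h
    simpa [f0] using this
  have : Nontrivial V0 := ⟨f0, 0, hf0⟩
  have hev := hsym0.hasEigenvalue_iSup_of_finiteDimensional
  set μ : ℝ := ⨆ x : { x : V0 // x ≠ 0 },
    RCLike.re (inner ℝ ((T.restrict hTV) x) (x : V0)) / ‖(x : V0)‖ ^ 2 with hμ
  have hnorm : ∀ x : V0, ‖x‖ ^ 2 = ∑ X, (x : EuclideanSpace ℝ Ω).ofLp X ^ 2 := by
    intro x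
    rw [← real_inner_self_eq_norm_sq, Submodule.coe_inner, hinner]
    exact Finset.sum_congr rfl fun X _ => by ring
  have hin : ∀ x : V0, (inner ℝ ((T.restrict hTV) x) x : ℝ)
      = ∑ X, (x : EuclideanSpace ℝ Ω).ofLp X * Q w (x : EuclideanSpace ℝ Ω).ofLp X := by
    intro x
    rw [Submodule.coe_inner, hinner]
    exact Finset.sum_congr rfl fun X _ => mul_comm _ _
  have hbdd : BddAbove (Set.range fun x : { x : V0 // x ≠ 0 } =>
      RCLike.re (inner ℝ ((T.restrict hTV) x) (x : V0)) / ‖(x : V0)‖ ^ 2) := by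
    refine ⟨1, ?_⟩
    rintro _ ⟨x, rfl⟩
    have hx : 0 < ‖(x : V0)‖ ^ 2 := by
      have := norm_pos_iff.2 x.2
      positivity
    simp only
    rw [div_le_one hx, RCLike.re_to_real, hin, hnorm, dirichlet w hw]
    have : 0 ≤ ∑ X, ∑ Y, w X Y * ((((x : V0) : EuclideanSpace ℝ Ω).ofLp X) -
        (((x : V0) : EuclideanSpace ℝ Ω).ofLp Y)) ^ 2 :=
      Finset.sum_nonneg fun X _ => Finset.sum_nonneg fun Y _ => mul_nonneg (hw0 X Y) (sq_nonneg _)
    linarith
  have hle : r ≤ μ := by
    refine le_trans ?_ (le_ciSup hbdd ⟨f0, hf0⟩)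
    have hx : 0 < ‖f0‖ ^ 2 := by
      have := norm_pos_iff.2 hf0
      positivity
    simp only
    rw [le_div_iff₀ hx, RCLike.re_to_real, hin, hnorm]
    exact hr
  obtain ⟨v, hv⟩ := hev.exists_hasEigenvector
  refine ⟨μ, hle, (v : EuclideanSpace ℝ Ω).ofLp, ?_, v.2, ?_⟩
  · intro h
    apply hv.2
    apply Subtype.ext
    apply WithLp.ofLp_injective
    simpa using h
  · have h1 := hv.apply_eq_smul
    have h2 := congrArg (fun v : V0 => (v : EuclideanSpace ℝ Ω).ofLp) h1
    exact h2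

lemma eigen_le_one (w : Ω → Ω → ℝ) (hw : ∀ X Y, w X Y = w Y X) (hw0 : ∀ X Y, 0 ≤ w X Y)
    (h : Ω → ℝ) (hh : h ≠ 0) (μ : ℝ) (hQ : Q w h = μ • h) : μ ≤ 1 := by
  have h1 := dirichlet w hw h
  rw [hQ] at h1
  have h2 : ∑ X, h X * (μ • h) X = μ * ∑ X, h X ^ 2 := by
    rw [Finset.mul_sum]
    exact Finset.sum_congr rfl fun X _ => by simp; ring
  rw [h2] at h1
  have h3 : 0 ≤ ∑ X, ∑ Y, w X Y * (h X - h Y) ^ 2 :=
    Finset.sum_nonneg fun X _ => Finset.sum_nonneg fun Y _ => mul_nonneg (hw0 X Y) (sq_nonneg _)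
  have h4 : 0 < ∑ X, h X ^ 2 := by
    obtain ⟨X, hX⟩ := Function.ne_iff.1 hh
    refine Finset.sum_pos' (fun X _ => sq_nonneg _) ⟨X, Finset.mem_univ _, ?_⟩
    have : h X ≠ 0 := hX
    positivity
  nlinarith

end Abstract

/-! ### Chord swaps -/

variable {n : ℕ}

lemma swap_ne {X Y : Equiv.Perm (Fin (2 * n))} (h : IsSwap X Y) : X ≠ Y := by
  obtain ⟨A, B, C, D, hn, h1, h2, h3, h4, h5⟩ := h
  rintro rfl
  rw [h1] at h3
  simp at hn
  exact hn.2.1.1 h3

lemma swap_symm {X Y : Equiv.Perm (Fin (2 * n))} (h : IsSwap X Y) : IsSwap Y X := by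
  obtain ⟨A, B, C, D, hn, h1, h2, h3, h4, h5⟩ := h
  refine ⟨A, C, B, D, ?_, h3, h4, h1, h2, fun z z1 z2 z3 z4 => (h5 z z1 z3 z2 z4).symm⟩
  simp at hn ⊢
  tauto

/-- a swap which moves `s` is determined by the new partner of `s` -/
lemma swap_form {X Y : Equiv.Perm (Fin (2 * n))} (hX : ∀ x, X (X x) = x)
    (hY : ∀ x, Y (Y x) = x) (h : IsSwap X Y) {s : Fin (2 * n)} (hs : Y s ≠ X s) :
    Y (Y s) = s ∧ Y (X s) = X (Y s) ∧ Y (X (Y s)) = X s ∧
      ∀ z, z ≠ s → z ≠ X s → z ≠ Y s → z ≠ X (Y s) → Y z = X z := by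
  obtain ⟨A, B, C, D, hn, h1, h2, h3, h4, h5⟩ := h
  have k1 : X B = A := by rw [← h1, hX]
  have k2 : X D = C := by rw [← h2, hX]
  have k3 : Y C = A := by rw [← h3, hY]
  have k4 : Y D = B := by rw [← h4, hY]
  have hs' : s = A ∨ s = B ∨ s = C ∨ s = D := by
    by_contra hcon
    push Not at hcon
    exact hs (h5 s hcon.1 hcon.2.1 hcon.2.2.1 hcon.2.2.2)
  rcases hs' with rfl | rfl | rfl | rfl
  · rw [h3, h1, h2, h4]
    exact ⟨k3, rfl, k4, fun z z1 z2 z3 z4 => h5 z z1 z2 z3 z4⟩
  · rw [h4, k1, k2, h3]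
    exact ⟨k4, rfl, k3, fun z z1 z2 z3 z4 => h5 z z2 z1 z4 z3⟩
  · rw [k3, h2, h1, k4]
    exact ⟨h3, rfl, h4, fun z z1 z2 z3 z4 => h5 z z3 z4 z1 z2⟩
  · rw [k4, k2, k1, k3]
    exact ⟨h4, rfl, h3, fun z z1 z2 z3 z4 => h5 z z4 z3 z2 z1⟩

lemma swap_inj {X Y Y' : Equiv.Perm (Fin (2 * n))} (hX : ∀ x, X (X x) = x)
    (hY : ∀ x, Y (Y x) = x) (hY' : ∀ x, Y' (Y' x) = x) (h : IsSwap X Y) (h' : IsSwap X Y')
    {s : Fin (2 * n)} (hs : Y s ≠ X s) (he : Y s = Y' s) : Y = Y' := by
  obtain ⟨a1, a2, a3, a4⟩ := swap_form hX hY h hs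
  obtain ⟨b1, b2, b3, b4⟩ := swap_form hX hY' h' (he ▸ hs)
  rw [← he] at b1 b2 b3 b4
  ext z : 1
  by_cases z1 : z = s
  · rw [z1, he]
  by_cases z2 : z = X s
  · rw [z2, a2, b2]
  by_cases z3 : z = Y s
  · rw [z3, a1, b1]
  by_cases z4 : z = X (Y s)
  · rw [z4, a3, b3]
  rw [a4 z z1 z2 z3 z4, b4 z z1 z2 z3 z4]

open scoped Classical in
/-- the weights of the chain -/
noncomputable def wt (n g : ℕ) : Omega n g → Omega n g → ℝ := fun X Y =>
  if IsSwap X.1 Y.1 then 1 / (4 * (n.choose 2 : ℝ)) else 0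

lemma wt_symm (g : ℕ) (X Y : Omega n g) : wt n g X Y = wt n g Y X := by
  unfold wt
  by_cases h : IsSwap X.1 Y.1
  · rw [if_pos h, if_pos (swap_symm h)]
  · rw [if_neg h, if_neg (fun h' => h (swap_symm h'))]

lemma wt_nonneg (g : ℕ) (X Y : Omega n g) : 0 ≤ wt n g X Y := by
  unfold wt
  split_ifs
  · positivity
  · exact le_rfl

lemma mulVec_P (g : ℕ) (f : Omega n g → ℝ) : (P n g).mulVec f = Q (wt n g) f := by
  classical
  funext X
  rw [Matrix.mulVec, dotProduct, Q]
  have h1 : ∀ Y, P n g X Y * f Y = wt n g X Y * f Y +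
      if X = Y then (1 - ∑ Z : Omega n g, wt n g X Z) * f X else 0 := by
    intro Y
    by_cases h : X = Y
    · subst h
      have h2 : wt n g X X = 0 := if_neg fun h => swap_ne h rfl
      have h3 : (∑ Z : Omega n g, if Z ≠ X ∧ IsSwap X.1 Z.1 then
          1 / (4 * (n.choose 2 : ℝ)) else 0) = ∑ Z : Omega n g, wt n g X Z := by
        refine Finset.sum_congr rfl fun Z _ => ?_
        unfold wt
        by_cases h : IsSwap X.1 Z.1
        · rw [if_pos h, if_pos ⟨fun h' => swap_ne h (congrArg Subtype.val h'.symm), h⟩]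
        · rw [if_neg h, if_neg fun h' => h h'.2]
      rw [h2, P, if_pos rfl, if_pos rfl, h3]
      ring
    · rw [P, if_neg h, if_neg h, add_zero, wt]
  simp only [h1]
  rw [Finset.sum_add_distrib, Finset.sum_ite_eq Finset.univ X]
  simp only [Finset.mem_univ, if_true]
  have h4 : ∑ Y, wt n g X Y * (f X - f Y) =
      (∑ Y, wt n g X Y) * f X - ∑ Y, wt n g X Y * f Y := by
    rw [Finset.sum_mul, ← Finset.sum_sub_distrib]
    exact Finset.sum_congr rfl fun Y _ => by ring
  rw [h4]
  ring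

/-- at most one swap creates a given chord -/
lemma sum_wt_le (g : ℕ) (Y : Omega n g) (s t : Fin (2 * n)) (hY : Y.1 s ≠ t) :
    ∑ X, wt n g Y X * (if X.1 s = t then 1 else 0) ≤ 1 / (4 * (n.choose 2 : ℝ)) := by
  classical
  have h0 : ∀ X, wt n g Y X * (if X.1 s = t then 1 else 0) =
      if IsSwap Y.1 X.1 ∧ X.1 s = t then 1 / (4 * (n.choose 2 : ℝ)) else 0 := by
    intro X
    unfold wt
    by_cases h : IsSwap Y.1 X.1 <;> by_cases h' : X.1 s = t <;> simp [h, h']
  simp only [h0]
  rw [← Finset.sum_filter, Finset.sum_const, nsmul_eq_mul]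
  have hcard : (Finset.univ.filter fun X : Omega n g => IsSwap Y.1 X.1 ∧ X.1 s = t).card
      ≤ 1 := by
    refine Finset.card_le_one.2 ?_
    intro X hX X' hX'
    have hX := (Finset.mem_filter.1 hX).2
    have hX' := (Finset.mem_filter.1 hX').2
    exact Subtype.ext (swap_inj Y.2.1 X.2.1 X'.2.1 hX.1 hX'.1
      (by rw [hX.2]; exact hY.symm) (hX.2.trans hX'.2.symm))
  have hc : (0 : ℝ) ≤ 1 / (4 * (n.choose 2 : ℝ)) := by positivity
  have h1 : ((Finset.univ.filter fun X : Omega n g => IsSwap Y.1 X.1 ∧ X.1 s = t).card : ℝ)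
      ≤ 1 := by exact_mod_cast hcard
  nlinarith

lemma main (g : ℕ) (s t : Fin (2 * n)) (hne : ∃ X : Omega n g, X.1 s = t)
    (hne' : ∃ X : Omega n g, X.1 s ≠ t) :
    ∃ μ : ℝ, 1 - 1 / (4 * (n.choose 2 : ℝ)) * (Nat.card (Omega n g) : ℝ) /
      (Nat.card {X : Omega n g // X.1 s = t} : ℝ) ≤ μ ∧
      ∃ h : Omega n g → ℝ, h ≠ 0 ∧ ∑ X, h X = 0 ∧ (P n g).mulVec h = μ • h := by
  classical
  set c : ℝ := 1 / (4 * (n.choose 2 : ℝ)) with hc
  have hc0 : 0 ≤ c := by positivity
  set e : Omega n g → ℝ := fun X => if X.1 s = t then 1 else 0 with he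
  set a : ℝ := ∑ X, e X with ha
  set N : ℝ := (Nat.card (Omega n g) : ℝ) with hN
  have ha' : a = Nat.card {X : Omega n g // X.1 s = t} := by
    rw [ha, he, Finset.sum_boole, Nat.card_eq_fintype_card, Fintype.card_subtype]
  rw [← ha']
  have hpos : 0 < a := by
    obtain ⟨X, hX⟩ := hne
    refine Finset.sum_pos' (fun X _ => ?_) ⟨X, Finset.mem_univ _, ?_⟩
    · simp only [he]; split_ifs <;> norm_num
    · simp only [he, if_pos hX]; norm_num
  have hsumN : ∑ _X : Omega n g, (1 : ℝ) = N := by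
    rw [Finset.sum_const, nsmul_eq_mul, mul_one, Finset.card_univ, hN, Nat.card_eq_fintype_card]
  have haN : a < N := by
    obtain ⟨X, hX⟩ := hne'
    rw [← hsumN, ha]
    refine Finset.sum_lt_sum (fun X _ => ?_) ⟨X, Finset.mem_univ _, ?_⟩
    · simp only [he]; split_ifs <;> norm_num
    · simp only [he, if_neg hX]; norm_num
  have hNpos : 0 < N := by linarith
  have he2 : ∀ X, e X ^ 2 = e X := by
    intro X
    simp only [he]; split_ifs <;> norm_num
  set f : Omega n g → ℝ := fun X => e X - a / N with hf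
  have hs : ∑ X, f X = 0 := by
    simp only [hf]
    rw [Finset.sum_sub_distrib, ← ha]
    have : ∑ _X : Omega n g, a / N = (a / N) * ∑ _X : Omega n g, (1 : ℝ) := by
      rw [Finset.mul_sum]; simp
    rw [this, hsumN]
    field_simp
    ring
  have hsq : ∑ X, f X ^ 2 = a * (1 - a / N) := by
    have h1 : ∀ X, f X ^ 2 = e X - 2 * (a / N) * e X + (a / N) ^ 2 * 1 := by
      intro X
      have := he2 X
      simp only [hf]
      linear_combination this
    simp only [h1]
    rw [Finset.sum_add_distrib, Finset.sum_sub_distrib, ← Finset.mul_sum, ← Finset.mul_sum,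
      hsumN, ← ha]
    field_simp
    ring
  have hf0 : f ≠ 0 := by
    intro h
    rw [h] at hsq
    simp at hsq
    rcases hsq with h1 | h1
    · exact hpos.ne' h1
    · have h3 : a / N < 1 := by
        rw [div_lt_one hNpos]
        exact haN
      linarith
  have hD : (1 / 2) * ∑ X, ∑ Y, wt n g X Y * (f X - f Y) ^ 2 ≤ c * (N - a) := by
    have h1 : ∀ X Y, wt n g X Y * (f X - f Y) ^ 2 =
        (1 - e X) * (wt n g X Y * e Y) + (1 - e Y) * (wt n g Y X * e X) := by
      intro X Y
      rw [wt_symm g Y X]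
      simp only [hf]
      linear_combination (wt n g X Y) * (he2 X) + (wt n g X Y) * (he2 Y)
    simp only [h1, Finset.sum_add_distrib]
    rw [Finset.sum_comm (f := fun X Y => (1 - e Y) * (wt n g Y X * e X))]
    have h2 : ∑ X, ∑ Y, (1 - e X) * (wt n g X Y * e Y) ≤ c * (N - a) := by
      have h3 : ∀ X, ∑ Y, (1 - e X) * (wt n g X Y * e Y) ≤ (1 - e X) * c := by
        intro X
        rw [← Finset.mul_sum]
        by_cases hX : X.1 s = t
        · have : e X = 1 := if_pos hX
          rw [this]; simp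
        · refine mul_le_mul_of_nonneg_left (sum_wt_le g X s t hX) ?_
          simp only [he, if_neg hX]; norm_num
      refine le_trans (Finset.sum_le_sum fun X _ => h3 X) ?_
      rw [← Finset.sum_mul, Finset.sum_sub_distrib, ← ha, hsumN]
      apply le_of_eq
      ring
    linarith
  obtain ⟨μ, h1, h, h2, h3, h4⟩ := exists_eigen (wt n g) (wt_symm g) (wt_nonneg g) f hf0 hs
    (1 - c * N / a) (by
      rw [dirichlet _ (wt_symm g), hsq]
      have h4 : c * N / a * (a * (1 - a / N)) = c * (N - a) := by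
        field_simp
      linarith)
  exact ⟨μ, h1, h, h2, h3, by rw [mulVec_P, h4]⟩

lemma gap_le_of (g : ℕ) (s t : Fin (2 * n)) (hne : ∃ X : Omega n g, X.1 s = t)
    (hne' : ∃ X : Omega n g, X.1 s ≠ t) :
    gap n g ≤ 1 / (4 * (n.choose 2 : ℝ)) * (Nat.card (Omega n g) : ℝ) /
      (Nat.card {X : Omega n g // X.1 s = t} : ℝ) := by
  have hbdd : BddAbove {μ : ℝ | ∃ f : Omega n g → ℝ, f ≠ 0 ∧ ∑ X, f X = 0 ∧
      (P n g).mulVec f = μ • f} := by
    refine ⟨1, ?_⟩
    rintro μ ⟨h, h1, _, h3⟩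
    exact eigen_le_one _ (wt_symm g) (wt_nonneg g) h h1 μ (by rw [← mulVec_P, h3])
  obtain ⟨μ, h1, h2⟩ := main g s t hne hne'
  have h3 := le_csSup hbdd h2
  unfold gap
  linarith

lemma gap_le (n g : ℕ) (hn : 2 ≤ n) (hΩ : 2 ≤ Nat.card (Omega n g)) :
    gap n g ≤ (2 * n - 1) / (2 * n * (n - 1)) := by
  classical
  have hnt : Nontrivial (Omega n g) := by
    rw [← Fintype.one_lt_card_iff_nontrivial, ← Nat.card_eq_fintype_card]
    omega
  obtain ⟨X, Y, hXY⟩ := exists_pair_ne (Omega n g)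
  have h1 : ∃ s, X.1 s ≠ Y.1 s := by
    by_contra hcon
    push Not at hcon
    exact hXY (Subtype.ext (Equiv.ext hcon))
  obtain ⟨s, hs⟩ := h1
  have hcs : (Finset.univ.erase s).card = 2 * n - 1 := by
    rw [Finset.card_erase_of_mem (Finset.mem_univ _), Finset.card_univ, Fintype.card_fin]
  have h2 : Fintype.card (Omega n g) = ∑ t ∈ Finset.univ.erase s,
      (Finset.univ.filter fun Z : Omega n g => Z.1 s = t).card := by
    rw [← Finset.card_univ]
    exact Finset.card_eq_sum_card_fiberwise fun Z _ => by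
      simpa using Z.2.2.1 s
  obtain ⟨t, _, ht⟩ : ∃ t ∈ Finset.univ.erase s, Fintype.card (Omega n g) ≤
      (2 * n - 1) * (Finset.univ.filter fun Z : Omega n g => Z.1 s = t).card := by
    by_contra hcon
    push Not at hcon
    have hpos : 0 < 2 * n - 1 := by omega
    have h3 : ∑ t ∈ Finset.univ.erase s, (2 * n - 1) *
        (Finset.univ.filter fun Z : Omega n g => Z.1 s = t).card <
          ∑ t ∈ Finset.univ.erase s, Fintype.card (Omega n g) := by
      refine Finset.sum_lt_sum_of_nonempty ?_ hcon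
      rw [← Finset.card_pos, hcs]
      exact hpos
    rw [← Finset.mul_sum, ← h2, Finset.sum_const, hcs, smul_eq_mul] at h3
    exact lt_irrefl _ h3
  have hcard : Fintype.card (Omega n g) ≤
      (2 * n - 1) * Nat.card {Z : Omega n g // Z.1 s = t} := by
    rw [Nat.card_eq_fintype_card, Fintype.card_subtype]
    exact ht
  have hpos : 0 < Nat.card {Z : Omega n g // Z.1 s = t} := by
    rcases Nat.eq_zero_or_pos (Nat.card {Z : Omega n g // Z.1 s = t}) with h | h
    · rw [h, mul_zero] at hcard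
      rw [Nat.card_eq_fintype_card] at hΩ
      omega
    · exact h
  have hne : ∃ Z : Omega n g, Z.1 s = t := by
    obtain ⟨⟨Z, hZ⟩⟩ := (Nat.card_pos_iff.1 hpos).1
    exact ⟨Z, hZ⟩
  have hne' : ∃ Z : Omega n g, Z.1 s ≠ t := by
    by_contra hcon
    push Not at hcon
    exact hs ((hcon X).trans (hcon Y).symm)
  refine le_trans (gap_le_of g s t hne hne') ?_
  have hn' : (2 : ℝ) ≤ n := by exact_mod_cast hn
  have hb : (0 : ℝ) < Nat.card {Z : Omega n g // Z.1 s = t} := by exact_mod_cast hpos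
  have hcard' : (Nat.card (Omega n g) : ℝ) ≤
      (2 * n - 1) * Nat.card {Z : Omega n g // Z.1 s = t} := by
    rw [Nat.card_eq_fintype_card (α := Omega n g)]
    have h5 : ((Fintype.card (Omega n g) : ℕ) : ℝ) ≤
      (((2 * n - 1) * Nat.card {Z : Omega n g // Z.1 s = t} : ℕ) : ℝ) := by exact_mod_cast hcard
    rw [Nat.cast_mul, Nat.cast_sub (by omega)] at h5
    push_cast at h5
    exact h5
  have hd : (0 : ℝ) < 2 * n * (n - 1) := by
    have : (0 : ℝ) < n - 1 := by linarith
    positivity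
  have hc : 1 / (4 * (n.choose 2 : ℝ)) = 1 / (2 * n * (n - 1)) := by
    rw [Nat.cast_choose_two]
    congr 1
    ring
  rw [hc, div_le_div_iff₀ hb hd]
  have hd' : 2 * (n : ℝ) * (n - 1) ≠ 0 := hd.ne'
  have h6 : 1 / (2 * (n : ℝ) * (n - 1)) * (Nat.card (Omega n g) : ℝ) * (2 * n * (n - 1))
      = Nat.card (Omega n g) := by
    rw [one_div, mul_comm, ← mul_assoc, mul_inv_cancel₀ hd', one_mul]
  rw [h6]
  exact hcard'

/-! ### Existence of diagrams -/

lemma rot_val : ∀ {k : ℕ} (x : Fin k), (finRotate k x : ℕ) = (x + 1) % k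
  | 0, x => x.elim0
  | k + 1, x => by rw [finRotate_apply, Fin.val_add]; simp

/-- the partner of the side `x` in the standard diagram of genus `g` -/
def par (g x : ℕ) : ℕ :=
  if x < 4 * g then (if x % 4 < 2 then x + 2 else x - 2)
  else (if x % 2 = 0 then x + 1 else x - 1)

lemma par_par (g x : ℕ) : par g (par g x) = x := by
  unfold par
  split_ifs <;> omega

lemma par_lt {n g x : ℕ} (h : 2 * g < n) (hx : x < 2 * n) : par g x < 2 * n := by
  unfold par
  split_ifs <;> omega

lemma par_ne (g x : ℕ) : par g x ≠ x := by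
  unfold par
  split_ifs <;> omega

/-- the standard diagram -/
def std {n g : ℕ} (h : 2 * g < n) : Equiv.Perm (Fin (2 * n)) where
  toFun x := ⟨par g x, par_lt h x.2⟩
  invFun x := ⟨par g x, par_lt h x.2⟩
  left_inv x := Fin.ext (par_par g x)
  right_inv x := Fin.ext (par_par g x)

lemma step_std {n g : ℕ} (h : 2 * g < n) (x y : Fin (2 * n)) (hxy : (y : ℕ) = par g x + 1) :
    (Quot.mk (fun a b : Fin (2 * n) => b = finRotate (2 * n) (std h a)) x) = Quot.mk _ y := by
  refine Quot.sound (Fin.ext ?_)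
  rw [rot_val, hxy]
  have h1 : ((std h x : Fin (2 * n)) : ℕ) = par g x := rfl
  have := y.2
  rw [h1, Nat.mod_eq_of_lt (by omega)]

lemma numVert_std {n g : ℕ} (h : 2 * g < n) : numVert (std h) = n - 2 * g + 1 := by
  have hc : ∀ x : Fin (2 * n),
      (if (x : ℕ) < 4 * g ∨ (x : ℕ) % 2 = 0 then 0 else ((x : ℕ) - 4 * g + 1) / 2)
        < n - 2 * g + 1 := by
    intro x
    have := x.2
    split_ifs <;> omega
  let c : Fin (2 * n) → Fin (n - 2 * g + 1) := fun x => ⟨_, hc x⟩
  have hr : ∀ a b : Fin (2 * n), b = finRotate (2 * n) (std h a) → c a = c b := by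
    intro a b hab
    have h1 : (b : ℕ) = (par g a + 1) % (2 * n) := by rw [hab, rot_val]; rfl
    have ha := a.2
    apply Fin.ext
    simp only [c]
    by_cases hw : par g a + 1 = 2 * n
    · rw [hw, Nat.mod_self] at h1
      rw [h1]
      unfold par at hw
      split_ifs at hw ⊢ <;> omega
    · have := par_lt h ha
      rw [Nat.mod_eq_of_lt (by omega)] at h1
      rw [h1]
      unfold par at *
      split_ifs at * <;> omega
  have h0 : ∀ i, (hi : i ≤ g) →
      (Quot.mk (fun a b : Fin (2 * n) => b = finRotate (2 * n) (std h a))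
        (⟨4 * i, by omega⟩ : Fin (2 * n))) = Quot.mk _ ⟨0, by omega⟩ := by
    intro i
    induction i with
    | zero => intro _; rfl
    | succ i ih =>
      intro hi
      rw [← ih (by omega)]
      have e1 := step_std h ⟨4 * i, by omega⟩ ⟨4 * i + 3, by omega⟩ (by
        simp only [par]; split_ifs <;> omega)
      have e2 := step_std h ⟨4 * i + 3, by omega⟩ ⟨4 * i + 2, by omega⟩ (by
        simp only [par]; split_ifs <;> omega)
      have e3 := step_std h ⟨4 * i + 2, by omega⟩ ⟨4 * i + 1, by omega⟩ (by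
        simp only [par]; split_ifs <;> omega)
      have e4 := step_std h ⟨4 * i + 1, by omega⟩ ⟨4 * (i + 1), by omega⟩ (by
        simp only [par]; split_ifs <;> omega)
      exact (e1.trans (e2.trans (e3.trans e4))).symm
  have h1 : ∀ j, (hj : 4 * g + 2 * j < 2 * n) →
      (Quot.mk (fun a b : Fin (2 * n) => b = finRotate (2 * n) (std h a))
        (⟨4 * g + 2 * j, hj⟩ : Fin (2 * n))) = Quot.mk _ ⟨0, by omega⟩ := by
    intro j
    induction j with
    | zero => intro _; exact h0 g le_rfl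
    | succ j ih =>
      intro hj
      rw [← ih (by omega)]
      exact (step_std h ⟨4 * g + 2 * j, by omega⟩ ⟨4 * g + 2 * (j + 1), hj⟩ (by
        simp only [par]; split_ifs <;> omega)).symm
  have h2 : ∀ a : Fin (2 * n), ((a : ℕ) < 4 * g ∨ (a : ℕ) % 2 = 0) →
      (Quot.mk (fun a b : Fin (2 * n) => b = finRotate (2 * n) (std h a)) a)
        = Quot.mk _ ⟨0, by omega⟩ := by
    intro a ha
    by_cases hg : 4 * g ≤ (a : ℕ)
    · have := h1 (((a : ℕ) - 4 * g) / 2) (by omega)
      rw [← this]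
      congr 1
      apply Fin.ext
      simp only
      omega
    · have hi := h0 ((a : ℕ) / 4) (by omega)
      rw [← hi]
      have h4 : (a : ℕ) % 4 = 0 ∨ (a : ℕ) % 4 = 3 ∨ (a : ℕ) % 4 = 2 ∨ (a : ℕ) % 4 = 1 := by
        omega
      have e1 := step_std h ⟨4 * ((a : ℕ) / 4), by omega⟩ ⟨4 * ((a : ℕ) / 4) + 3, by omega⟩ (by
        simp only [par]; split_ifs <;> omega)
      have e2 := step_std h ⟨4 * ((a : ℕ) / 4) + 3, by omega⟩
        ⟨4 * ((a : ℕ) / 4) + 2, by omega⟩ (by
        simp only [par]; split_ifs <;> omega)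
      have e3 := step_std h ⟨4 * ((a : ℕ) / 4) + 2, by omega⟩
        ⟨4 * ((a : ℕ) / 4) + 1, by omega⟩ (by
        simp only [par]; split_ifs <;> omega)
      rcases h4 with h4 | h4 | h4 | h4
      · congr 1
        apply Fin.ext
        simp only
        omega
      · rw [e1]
        congr 1
        apply Fin.ext
        simp only
        omega
      · rw [e1, e2]
        congr 1
        apply Fin.ext
        simp only
        omega
      · rw [e1, e2, e3]
        congr 1
        apply Fin.ext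
        simp only
        omega
  have hb : Function.Bijective (Quot.lift c hr) := by
    constructor
    · intro q q'
      induction q using Quot.ind with
      | mk a =>
        induction q' using Quot.ind with
        | mk b =>
          intro hab
          have hab : c a = c b := hab
          have hab := congrArg Fin.val hab
          simp only [c] at hab
          by_cases ha : (a : ℕ) < 4 * g ∨ (a : ℕ) % 2 = 0
          · by_cases hb : (b : ℕ) < 4 * g ∨ (b : ℕ) % 2 = 0
            · rw [h2 a ha, h2 b hb]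
            · rw [if_pos ha, if_neg hb] at hab
              omega
          · by_cases hb : (b : ℕ) < 4 * g ∨ (b : ℕ) % 2 = 0
            · rw [if_neg ha, if_pos hb] at hab
              omega
            · rw [if_neg ha, if_neg hb] at hab
              congr 1
              apply Fin.ext
              omega
    · intro k
      by_cases hk : (k : ℕ) = 0
      · refine ⟨Quot.mk _ ⟨0, by omega⟩, ?_⟩
        apply Fin.ext
        simp [c, hk]
      · have := k.2
        refine ⟨Quot.mk _ ⟨4 * g + 2 * k - 1, by omega⟩, ?_⟩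
        apply Fin.ext
        simp only [c]
        rw [if_neg (by omega)]
        omega
  unfold numVert
  rw [Nat.card_eq_of_bijective _ hb, Nat.card_eq_fintype_card, Fintype.card_fin]

lemma exists_two {n g : ℕ} (hn : 2 ≤ n) (h : 2 * g < n) : ∃ X Y : Omega n g,
    X.1 ⟨2 * n - 2, by omega⟩ = ⟨2 * n - 1, by omega⟩ ∧
      Y.1 ⟨2 * n - 2, by omega⟩ ≠ ⟨2 * n - 1, by omega⟩ := by
  classical
  let X : Omega n g := ⟨std h, fun x => Fin.ext (par_par g x),
    fun x hx => par_ne g x (congrArg Fin.val hx), by rw [numVert_std h]; omega⟩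
  let e := finRotate (2 * n)
  have hconj : ∀ x, (e * std h * e⁻¹) x = e (std h (e.symm x)) := fun x => rfl
  have hnum : numVert (e * std h * e⁻¹) = numVert (std h) := by
    unfold numVert
    refine Nat.card_congr (Quot.congr e ?_).symm
    intro a b
    rw [hconj, Equiv.symm_apply_apply]
    exact e.injective.eq_iff.symm
  let Y : Omega n g := ⟨e * std h * e⁻¹, by
    intro x
    rw [hconj, hconj, Equiv.symm_apply_apply]
    have : std h (std h (e.symm x)) = e.symm x := Fin.ext (par_par g _)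
    rw [this, Equiv.apply_symm_apply], by
    intro x hx
    rw [hconj] at hx
    have h1 : std h (e.symm x) = e.symm x := e.eq_symm_apply.2 hx
    exact par_ne g _ (congrArg Fin.val h1), by rw [hnum, numVert_std h]; omega⟩
  have hX : std h (⟨2 * n - 2, by omega⟩ : Fin (2 * n)) = ⟨2 * n - 1, by omega⟩ := by
    apply Fin.ext
    have h6 : ((std h (⟨2 * n - 2, by omega⟩ : Fin (2 * n)) : Fin (2 * n)) : ℕ)
      = par g (2 * n - 2) := rfl
    rw [h6]
    simp only
    unfold par
    split_ifs <;> omega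
  refine ⟨X, Y, hX, fun hcon => ?_⟩
  have hcon : e (std h (e.symm ⟨2 * n - 2, by omega⟩)) = ⟨2 * n - 1, by omega⟩ := hcon
  have h1 : e (⟨2 * n - 2, by omega⟩ : Fin (2 * n)) = ⟨2 * n - 1, by omega⟩ := by
    apply Fin.ext
    rw [rot_val]
    simp only
    rw [Nat.mod_eq_of_lt (by omega)]
    omega
  rw [← h1] at hcon
  have h2 := e.injective hcon
  have h3 : e.symm (⟨2 * n - 2, by omega⟩ : Fin (2 * n)) = ⟨2 * n - 1, by omega⟩ := by
    rw [← hX]
    have : std h (std h (e.symm ⟨2 * n - 2, by omega⟩)) = e.symm ⟨2 * n - 2, by omega⟩ :=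
      Fin.ext (par_par g _)
    rw [← this, h2]
  have h4 := e.symm_apply_eq.1 h3
  have h5 := congrArg Fin.val h4
  rw [rot_val] at h5
  simp only at h5
  rw [show 2 * n - 1 + 1 = 2 * n by omega, Nat.mod_self] at h5
  omega

lemma two_le_card {n g : ℕ} (hn : 2 ≤ n) (h : 2 * g < n) : 2 ≤ Nat.card (Omega n g) := by
  obtain ⟨X, Y, h1, h2⟩ := exists_two hn h
  have : Nontrivial (Omega n g) := ⟨X, Y, fun hcon => h2 (by rw [← hcon]; exact h1)⟩
  rw [Nat.card_eq_fintype_card]
  exact Fintype.one_lt_card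

/-! ### Adding a chord between neighbouring sides -/

section Add

variable {m : ℕ}

/-- the diagram with the additional chord `{2 m, 2 m + 1}` -/
def addFun (σ : Equiv.Perm (Fin (2 * m))) (x : Fin (2 * (m + 1))) : Fin (2 * (m + 1)) :=
  if h : (x : ℕ) < 2 * m then ⟨σ ⟨x, h⟩, by omega⟩
  else if (x : ℕ) = 2 * m then ⟨2 * m + 1, by omega⟩ else ⟨2 * m, by omega⟩

lemma addFun_lt (σ : Equiv.Perm (Fin (2 * m))) {x : Fin (2 * (m + 1))} (h : (x : ℕ) < 2 * m) :
    (addFun σ x : ℕ) = σ ⟨x, h⟩ := by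
  rw [addFun, dif_pos h]

lemma addFun_eq (σ : Equiv.Perm (Fin (2 * m))) {x : Fin (2 * (m + 1))} (h : (x : ℕ) = 2 * m) :
    (addFun σ x : ℕ) = 2 * m + 1 := by
  rw [addFun, dif_neg (by omega), if_pos h]

lemma addFun_gt (σ : Equiv.Perm (Fin (2 * m))) {x : Fin (2 * (m + 1))}
    (h : (x : ℕ) = 2 * m + 1) : (addFun σ x : ℕ) = 2 * m := by
  rw [addFun, dif_neg (by omega), if_neg (by omega)]

lemma addFun_inv (σ : Equiv.Perm (Fin (2 * m))) (hσ : ∀ x, σ (σ x) = x) :
    Function.Involutive (addFun σ) := by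
  intro x
  apply Fin.ext
  have hx := x.2
  rcases (by omega : (x : ℕ) < 2 * m ∨ (x : ℕ) = 2 * m ∨ (x : ℕ) = 2 * m + 1) with h | h | h
  · have h1 := addFun_lt σ h
    have h2 : (addFun σ x : ℕ) < 2 * m := by rw [h1]; exact (σ ⟨x, h⟩).2
    rw [addFun_lt σ h2]
    have h3 : (⟨(addFun σ x : ℕ), h2⟩ : Fin (2 * m)) = σ ⟨x, h⟩ := Fin.ext h1
    rw [h3, hσ]
  · rw [addFun_gt σ (addFun_eq σ h), h]
  · rw [addFun_eq σ (addFun_gt σ h), h]

/-- the same as a permutation -/
def addP (σ : Equiv.Perm (Fin (2 * m))) (hσ : ∀ x, σ (σ x) = x) :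
    Equiv.Perm (Fin (2 * (m + 1))) :=
  Function.Involutive.toPerm (addFun σ) (addFun_inv σ hσ)

lemma numVert_add (hm : 1 ≤ m) (σ : Equiv.Perm (Fin (2 * m))) (hσ : ∀ x, σ (σ x) = x) :
    numVert (addP σ hσ) = numVert σ + 1 := by
  classical
  have htp : ∀ x, addP σ hσ x = addFun σ x := fun x => rfl
  let r : Fin (2 * m) → Fin (2 * m) → Prop := fun a b => b = finRotate (2 * m) (σ a)
  let r' : Fin (2 * (m + 1)) → Fin (2 * (m + 1)) → Prop :=
    fun a b => b = finRotate (2 * (m + 1)) (addP σ hσ a)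
  let φ : Fin (2 * (m + 1)) → Option (Quot r) := fun x =>
    if h : (x : ℕ) < 2 * m then some (Quot.mk r ⟨x, h⟩)
    else if (x : ℕ) = 2 * m then some (Quot.mk r ⟨0, by omega⟩) else none
  have r'_of : ∀ a b : Fin (2 * (m + 1)), (b : ℕ) = (addFun σ a + 1) % (2 * (m + 1)) →
      r' a b := by
    intro a b hab
    refine Fin.ext ?_
    rw [rot_val, htp, hab]
  have r_of : ∀ a b : Fin (2 * m), (b : ℕ) = (σ a + 1) % (2 * m) → r a b := by
    intro a b hab
    refine Fin.ext ?_
    rw [rot_val, hab]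
  have hφ : ∀ a b, r' a b → φ a = φ b := by
    intro a b hab
    have hab : (b : ℕ) = (addFun σ a + 1) % (2 * (m + 1)) := by
      have := congrArg Fin.val hab
      rw [rot_val, htp] at this
      exact this
    have ha := a.2
    rcases (by omega : (a : ℕ) < 2 * m ∨ (a : ℕ) = 2 * m ∨ (a : ℕ) = 2 * m + 1) with h | h | h
    · rw [addFun_lt σ h] at hab
      have hy := (σ ⟨a, h⟩).2
      rw [Nat.mod_eq_of_lt (by omega)] at hab
      simp only [φ]
      rw [dif_pos h]
      by_cases hb : (b : ℕ) < 2 * m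
      · rw [dif_pos hb]
        congr 1
        refine Quot.sound (r_of _ _ ?_)
        simp only
        rw [hab, Nat.mod_eq_of_lt (by omega)]
      · rw [dif_neg hb, if_pos (by omega)]
        congr 1
        refine Quot.sound (r_of _ _ ?_)
        simp only
        rw [show ((σ ⟨a, h⟩ : Fin (2 * m)) : ℕ) + 1 = 2 * m by omega, Nat.mod_self]
    · rw [addFun_eq σ h, show 2 * m + 1 + 1 = 2 * (m + 1) by ring, Nat.mod_self] at hab
      simp only [φ]
      rw [dif_neg (by omega), if_pos h, dif_pos (by omega)]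
      congr 1
      congr 1
      exact Fin.ext hab.symm
    · rw [addFun_gt σ h, Nat.mod_eq_of_lt (by omega)] at hab
      have : a = b := Fin.ext (by omega)
      rw [this]
  have hψ : ∀ a b : Fin (2 * m), r a b →
      Quot.mk r' (⟨a, by omega⟩ : Fin (2 * (m + 1))) = Quot.mk r' ⟨b, by omega⟩ := by
    intro a b hab
    have hab : (b : ℕ) = (σ a + 1) % (2 * m) := by
      have := congrArg Fin.val hab
      rw [rot_val] at this
      exact this
    have hy := (σ a).2
    have ha : ((⟨a, by omega⟩ : Fin (2 * (m + 1))) : ℕ) < 2 * m := a.2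
    have h1 := addFun_lt σ ha
    have h2 : (⟨((⟨a, by omega⟩ : Fin (2 * (m + 1))) : ℕ), ha⟩ : Fin (2 * m)) = a := rfl
    rw [h2] at h1
    by_cases hw : (σ a : ℕ) + 1 < 2 * m
    · rw [Nat.mod_eq_of_lt hw] at hab
      refine Quot.sound (r'_of _ _ ?_)
      rw [h1, Nat.mod_eq_of_lt (by omega)]
      exact hab
    · have hw' : (σ a : ℕ) + 1 = 2 * m := by omega
      rw [hw', Nat.mod_self] at hab
      have e1 : Quot.mk r' (⟨a, by omega⟩ : Fin (2 * (m + 1))) = Quot.mk r' ⟨2 * m, by omega⟩ := by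
        refine Quot.sound (r'_of _ _ ?_)
        rw [h1, Nat.mod_eq_of_lt (by omega)]
        exact hw'.symm
      have e2 : Quot.mk r' (⟨2 * m, by omega⟩ : Fin (2 * (m + 1))) = Quot.mk r' ⟨b, by omega⟩ := by
        refine Quot.sound (r'_of _ _ ?_)
        rw [addFun_eq σ rfl, show 2 * m + 1 + 1 = 2 * (m + 1) by ring, Nat.mod_self]
        exact hab
      exact e1.trans e2
  have e0 : Quot.mk r' (⟨2 * m, by omega⟩ : Fin (2 * (m + 1))) = Quot.mk r' ⟨0, by omega⟩ := by
    refine Quot.sound (r'_of _ _ ?_)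
    rw [addFun_eq σ rfl, show 2 * m + 1 + 1 = 2 * (m + 1) by ring, Nat.mod_self]
  let E : Quot r' ≃ Option (Quot r) :=
    { toFun := Quot.lift φ hφ
      invFun := fun o => o.elim (Quot.mk r' ⟨2 * m + 1, by omega⟩)
        (Quot.lift (fun x : Fin (2 * m) => Quot.mk r' ⟨x, by omega⟩) hψ)
      left_inv := by
        intro q
        induction q using Quot.ind with
        | mk x =>
          have hx := x.2
          change Option.elim (φ x) _ _ = _
          rcases (by omega : (x : ℕ) < 2 * m ∨ (x : ℕ) = 2 * m ∨ (x : ℕ) = 2 * m + 1) with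
            h | h | h
          · simp only [φ]
            rw [dif_pos h]
            rfl
          · simp only [φ]
            rw [dif_neg (by omega), if_pos h]
            have hx' : x = ⟨2 * m, by omega⟩ := Fin.ext h
            rw [hx']
            exact e0.symm
          · simp only [φ]
            rw [dif_neg (by omega), if_neg (by omega)]
            have hx' : x = ⟨2 * m + 1, by omega⟩ := Fin.ext h
            rw [hx']
            rfl
      right_inv := by
        intro o
        rcases o with _ | q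
        · change φ _ = _
          simp only [φ]
          rw [dif_neg (by omega), if_neg (by omega)]
        · induction q using Quot.ind with
          | mk x =>
            change φ _ = _
            simp only [φ]
            rw [dif_pos x.2] }
  unfold numVert
  have h1 : Nat.card (Quot r') = Nat.card (Quot r) + 1 := by
    rw [Nat.card_congr E, Finite.card_option]
  exact h1

lemma card_le_add (hm : 1 ≤ m) (g : ℕ) : Nat.card (Omega m g) ≤
    Nat.card {X : Omega (m + 1) g // X.1 ⟨2 * (m + 1) - 2, by omega⟩ =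
      ⟨2 * (m + 1) - 1, by omega⟩} := by
  classical
  let F : Omega m g → {X : Omega (m + 1) g // X.1 ⟨2 * (m + 1) - 2, by omega⟩ =
      ⟨2 * (m + 1) - 1, by omega⟩} := fun X =>
    ⟨⟨addP X.1 X.2.1, fun x => addFun_inv X.1 X.2.1 x, by
      intro x hx
      have hx : addFun X.1 x = x := hx
      have hx := congrArg Fin.val hx
      have hx2 := x.2
      rcases (by omega : (x : ℕ) < 2 * m ∨ (x : ℕ) = 2 * m ∨ (x : ℕ) = 2 * m + 1) with
        h | h | h
      · rw [addFun_lt _ h] at hx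
        exact X.2.2.1 ⟨x, h⟩ (Fin.ext hx)
      · rw [addFun_eq _ h] at hx
        omega
      · rw [addFun_gt _ h] at hx
        omega, by
      rw [numVert_add hm X.1 X.2.1]
      have := X.2.2.2
      omega⟩, by
      apply Fin.ext
      have h := addFun_eq X.1 (x := ⟨2 * (m + 1) - 2, by omega⟩) (by simp only; omega)
      exact h.trans (by simp only; omega)⟩
  refine Nat.card_le_card_of_injective F ?_
  intro X X' hXX
  apply Subtype.ext
  ext x : 1
  have h1 := congrArg (fun Z => Z.1.1) hXX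
  have h2 : addFun X.1 ⟨x, by omega⟩ = addFun X'.1 ⟨x, by omega⟩ := by
    have := congrArg (fun Z : Equiv.Perm (Fin (2 * (m + 1))) => Z ⟨x, by omega⟩) h1
    exact this
  have h3 := congrArg Fin.val h2
  rw [addFun_lt X.1 (x := ⟨x, by omega⟩) x.2, addFun_lt X'.1 (x := ⟨x, by omega⟩) x.2] at h3
  exact Fin.ext h3

end Add

lemma gap_mul_le {n g : ℕ} (hn : 2 ≤ n) (h : 2 * g < n) :
    gap n g * (2 * n * (n - 1) * Nat.card (Omega (n - 1) g)) ≤ Nat.card (Omega n g) := by
  obtain ⟨X, Y, h1, h2⟩ := exists_two hn h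
  have hgap := gap_le_of g _ _ ⟨X, h1⟩ ⟨Y, h2⟩
  obtain ⟨m, rfl⟩ : ∃ m, n = m + 1 := ⟨n - 1, by omega⟩
  have hcard := card_le_add (m := m) (by omega) g
  set a := Nat.card {X : Omega (m + 1) g // X.1 ⟨2 * (m + 1) - 2, by omega⟩ =
      ⟨2 * (m + 1) - 1, by omega⟩} with ha
  have hpos : 0 < a := Nat.card_pos_iff.2 ⟨⟨⟨X, h1⟩⟩, inferInstance⟩
  rw [Nat.add_sub_cancel]
  have hb : (0 : ℝ) < a := by exact_mod_cast hpos
  have hcard' : (Nat.card (Omega m g) : ℝ) ≤ a := by exact_mod_cast hcard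
  have hn' : (2 : ℝ) ≤ ((m + 1 : ℕ) : ℝ) := by exact_mod_cast hn
  set ν : ℝ := ((m + 1 : ℕ) : ℝ) with hν
  have hd : (0 : ℝ) < 2 * ν * (ν - 1) := by
    have : (0 : ℝ) < ν - 1 := by linarith
    positivity
  have hc : 1 / (4 * ((m + 1).choose 2 : ℝ)) = 1 / (2 * ν * (ν - 1)) := by
    rw [Nat.cast_choose_two, ← hν]
    congr 1
    ring
  rw [hc] at hgap
  have h3 : gap (m + 1) g * (2 * ν * (ν - 1) * a) ≤ Nat.card (Omega (m + 1) g) := by
    have h4 := mul_le_mul_of_nonneg_right hgap (show 0 ≤ 2 * ν * (ν - 1) * a by positivity)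
    refine h4.trans (le_of_eq ?_)
    have hd' := hd.ne'
    have hb' := hb.ne'
    have h6 : ν - 1 ≠ 0 := by intro h; rw [h, mul_zero] at hd'; exact hd' rfl
    have h7 : ν ≠ 0 := by intro h; rw [h] at hn'; norm_num at hn'
    field_simp
  rcases le_total 0 (gap (m + 1) g) with h5 | h5
  · refine le_trans (mul_le_mul_of_nonneg_left ?_ h5) h3
    exact mul_le_mul_of_nonneg_left hcard' hd.le
  · refine le_trans (mul_nonpos_of_nonpos_of_nonneg h5 ?_) (Nat.cast_nonneg _)
    exact mul_nonneg hd.le (Nat.cast_nonneg _)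

/-! ### Vertices of degree one and two -/

/-- the vertex `x` is alone in its class -/
def One {n : ℕ} (σ : Equiv.Perm (Fin (2 * n))) (x : Fin (2 * n)) : Prop :=
  finRotate (2 * n) (σ x) = x

/-- the class of the vertex `x` has two elements -/
def Two {n : ℕ} (σ : Equiv.Perm (Fin (2 * n))) (x : Fin (2 * n)) : Prop :=
  finRotate (2 * n) (σ x) ≠ x ∧ finRotate (2 * n) (σ (finRotate (2 * n) (σ x))) = x

open scoped Classical in
lemma three_numVert {n : ℕ} (σ : Equiv.Perm (Fin (2 * n))) :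
    6 * numVert σ ≤ ∑ x, ((if One σ x then 4 else 0) + (if Two σ x then 1 else 0) + 2) := by
  let r : Fin (2 * n) → Fin (2 * n) → Prop := fun a b => b = finRotate (2 * n) (σ a)
  let τ : Fin (2 * n) → Fin (2 * n) := fun a => finRotate (2 * n) (σ a)
  have hτ : Function.Injective τ := fun a b h => σ.injective ((finRotate (2 * n)).injective h)
  have : Fintype (Quot r) := Fintype.ofFinite _
  have h1 : numVert σ = Fintype.card (Quot r) := Nat.card_eq_fintype_card
  rw [h1, ← Finset.sum_fiberwise (s := Finset.univ) (g := fun x => Quot.mk r x)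
    (f := fun x => ((if One σ x then 4 else 0) + (if Two σ x then 1 else 0) + 2))]
  have h2 : ∀ q : Quot r, 6 ≤ ∑ x ∈ Finset.univ.filter (fun x => Quot.mk r x = q),
      ((if One σ x then 4 else 0) + (if Two σ x then 1 else 0) + 2) := by
    intro q
    induction q using Quot.ind with
    | mk x =>
      have m0 : x ∈ Finset.univ.filter (fun y => Quot.mk r y = Quot.mk r x) := by simp
      have m1 : τ x ∈ Finset.univ.filter (fun y => Quot.mk r y = Quot.mk r x) := by
        simp only [Finset.mem_filter, Finset.mem_univ, true_and]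
        exact (Quot.sound (show r x (τ x) from rfl)).symm
      have m2 : τ (τ x) ∈ Finset.univ.filter (fun y => Quot.mk r y = Quot.mk r x) := by
        simp only [Finset.mem_filter, Finset.mem_univ, true_and]
        exact ((Quot.sound (show r x (τ x) from rfl)).trans
          (Quot.sound (show r (τ x) (τ (τ x)) from rfl))).symm
      by_cases c1 : τ x = x
      · refine le_trans ?_ (Finset.single_le_sum (fun _ _ => Nat.zero_le _) m0)
        rw [if_pos (show One σ x from c1)]
        omega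
      by_cases c2 : τ (τ x) = x
      · have hsub : ({x, τ x} : Finset (Fin (2 * n))) ⊆
            Finset.univ.filter (fun y => Quot.mk r y = Quot.mk r x) := by
          intro y hy
          rcases Finset.mem_insert.1 hy with rfl | hy
          · exact m0
          · rw [Finset.mem_singleton.1 hy]; exact m1
        refine le_trans ?_ (Finset.sum_le_sum_of_subset hsub)
        rw [Finset.sum_pair (Ne.symm c1)]
        have t1 : Two σ x := ⟨c1, c2⟩
        have t2 : Two σ (τ x) := ⟨fun h => c1 (hτ h), congrArg τ c2⟩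
        rw [if_pos t1, if_pos t2]
        omega
      · have n1 : x ≠ τ x := Ne.symm c1
        have n2 : x ≠ τ (τ x) := Ne.symm c2
        have n3 : τ x ≠ τ (τ x) := fun h => n1 (hτ h)
        have hsub : ({x, τ x, τ (τ x)} : Finset (Fin (2 * n))) ⊆
            Finset.univ.filter (fun y => Quot.mk r y = Quot.mk r x) := by
          intro y hy
          rcases Finset.mem_insert.1 hy with rfl | hy
          · exact m0
          rcases Finset.mem_insert.1 hy with rfl | hy
          · exact m1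
          · rw [Finset.mem_singleton.1 hy]; exact m2
        refine le_trans ?_ (Finset.sum_le_sum_of_subset hsub)
        rw [Finset.sum_insert (by simp [n1, n2]), Finset.sum_pair n3]
        omega
  calc 6 * Fintype.card (Quot r) = ∑ _q : Quot r, 6 := by
        rw [Finset.sum_const, Finset.card_univ, smul_eq_mul, mul_comm]
    _ ≤ _ := Finset.sum_le_sum fun q _ => h2 q

/-! ### Removing a chord at a vertex of degree two -/

section Rem

variable {m : ℕ}

/-- `x ↦ x` or `x + 1`, missing `y` -/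
def emb (y x : ℕ) : ℕ := if x < y then x else x + 1

/-- the inverse -/
def col (y z : ℕ) : ℕ := if z < y then z else z - 1

lemma emb_col {y z : ℕ} (h : z ≠ y) : emb y (col y z) = z := by
  unfold emb col
  by_cases h1 : z < y
  · rw [if_pos h1, if_pos h1]
  · rw [if_neg h1, if_neg (by omega)]; omega

lemma col_emb (y x : ℕ) : col y (emb y x) = x := by
  unfold emb col
  by_cases h1 : x < y
  · rw [if_pos h1, if_pos h1]
  · rw [if_neg h1, if_neg (by omega)]; omega

lemma emb_lt {y x : ℕ} (h : x < 2 * m) : emb y x < 2 * (m + 1) := by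
  unfold emb; split_ifs <;> omega

/-- the diagram without the chord through the last side -/
def remFun (σ : Equiv.Perm (Fin (2 * (m + 1)))) (y : ℕ) (x : Fin (2 * m)) : Fin (2 * m) :=
  if h : col y (σ ⟨emb y x, emb_lt x.2⟩) < 2 * m then ⟨_, h⟩ else x

/-- the last side -/
def lst (m : ℕ) : Fin (2 * (m + 1)) := ⟨2 * m + 1, by omega⟩

lemma emb_facts {σ : Equiv.Perm (Fin (2 * (m + 1)))} (hσ : ∀ x, σ (σ x) = x) {y : ℕ}
    (hl : (σ (lst m) : ℕ) = y) (x : Fin (2 * m)) :
    (σ ⟨emb y x, emb_lt x.2⟩ : ℕ) ≠ y ∧ (σ ⟨emb y x, emb_lt x.2⟩ : ℕ) ≠ 2 * m + 1 := by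
  have hx := x.2
  constructor
  · intro h
    have h1 : σ ⟨emb y x, emb_lt x.2⟩ = σ (lst m) := Fin.ext (h.trans hl.symm)
    have h2 := congrArg Fin.val (σ.injective h1)
    simp only [lst] at h2
    unfold emb at h2
    split_ifs at h2 <;> omega
  · intro h
    have h1 : σ ⟨emb y x, emb_lt x.2⟩ = lst m := Fin.ext h
    have h2 : σ (lst m) = ⟨emb y x, emb_lt x.2⟩ := by rw [← h1, hσ]
    have h3 := congrArg Fin.val h2
    rw [hl] at h3
    simp only at h3
    unfold emb at h3
    split_ifs at h3 <;> omega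

lemma rem_val {σ : Equiv.Perm (Fin (2 * (m + 1)))} (hσ : ∀ x, σ (σ x) = x) {y : ℕ}
    (hl : (σ (lst m) : ℕ) = y) (hy : y ≤ 2 * m) (x : Fin (2 * m)) :
    (remFun σ y x : ℕ) = col y (σ ⟨emb y x, emb_lt x.2⟩) := by
  obtain ⟨h1, h2⟩ := emb_facts hσ hl x
  have h3 := (σ ⟨emb y x, emb_lt x.2⟩).2
  have h4 : col y (σ ⟨emb y x, emb_lt x.2⟩) < 2 * m := by
    unfold col; split_ifs <;> omega
  rw [remFun, dif_pos h4]

lemma emb_rem {σ : Equiv.Perm (Fin (2 * (m + 1)))} (hσ : ∀ x, σ (σ x) = x) {y : ℕ}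
    (hl : (σ (lst m) : ℕ) = y) (hy : y ≤ 2 * m) (x : Fin (2 * m)) :
    (⟨emb y (remFun σ y x), emb_lt (remFun σ y x).2⟩ : Fin (2 * (m + 1))) =
      σ ⟨emb y x, emb_lt x.2⟩ := by
  obtain ⟨h1, h2⟩ := emb_facts hσ hl x
  apply Fin.ext
  simp only
  rw [rem_val hσ hl hy, emb_col h1]

lemma rem_inv {σ : Equiv.Perm (Fin (2 * (m + 1)))} (hσ : ∀ x, σ (σ x) = x) {y : ℕ}
    (hl : (σ (lst m) : ℕ) = y) (hy : y ≤ 2 * m) : Function.Involutive (remFun σ y) := by
  intro x
  apply Fin.ext
  rw [rem_val hσ hl hy, emb_rem hσ hl hy, hσ]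
  exact col_emb y x

/-- the same as a permutation -/
def remP {σ : Equiv.Perm (Fin (2 * (m + 1)))} (hσ : ∀ x, σ (σ x) = x) {y : ℕ}
    (hl : (σ (lst m) : ℕ) = y) (hy : y ≤ 2 * m) : Equiv.Perm (Fin (2 * m)) :=
  Function.Involutive.toPerm (remFun σ y) (rem_inv hσ hl hy)

lemma two_zero {σ : Equiv.Perm (Fin (2 * (m + 1)))} (hσ : ∀ x, σ (σ x) = x)
    (h : Two σ ⟨0, by omega⟩) :
    (σ (lst m) : ℕ) = σ ⟨0, by omega⟩ + 1 ∧ (σ ⟨0, by omega⟩ : ℕ) + 1 ≤ 2 * m + 1 := by
  obtain ⟨h1, h2⟩ := h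
  have h3 := (σ (⟨0, by omega⟩ : Fin (2 * (m + 1)))).2
  have h4 : (σ (⟨0, by omega⟩ : Fin (2 * (m + 1))) : ℕ) + 1 ≠ 2 * (m + 1) := by
    intro h5
    apply h1
    apply Fin.ext
    rw [rot_val, h5, Nat.mod_self]
  have h6 : (finRotate (2 * (m + 1)) (σ (⟨0, by omega⟩ : Fin (2 * (m + 1)))) : ℕ)
      = σ ⟨0, by omega⟩ + 1 := by
    rw [rot_val, Nat.mod_eq_of_lt (by omega)]
  have h7 : σ (finRotate (2 * (m + 1)) (σ ⟨0, by omega⟩)) = lst m := by
    have h8 := congrArg Fin.val h2
    rw [rot_val] at h8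
    simp only at h8
    apply Fin.ext
    simp only [lst]
    have h9 := (σ (finRotate (2 * (m + 1)) (σ ⟨0, by omega⟩))).2
    by_contra hcon
    rw [Nat.mod_eq_of_lt (by omega)] at h8
    omega
  have h10 : σ (lst m) = finRotate (2 * (m + 1)) (σ ⟨0, by omega⟩) := by rw [← h7, hσ]
  rw [h10]
  exact ⟨h6, by omega⟩

lemma numVert_rem (hm : 1 ≤ m) {σ : Equiv.Perm (Fin (2 * (m + 1)))} (hσ : ∀ x, σ (σ x) = x)
    {y : ℕ} (hl : (σ (lst m) : ℕ) = y) (hy : y ≤ 2 * m) (h0 : (σ ⟨0, by omega⟩ : ℕ) + 1 = y)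
    (hy2 : 2 ≤ y) : numVert σ = numVert (remP hσ hl hy) + 1 := by
  classical
  let r : Fin (2 * m) → Fin (2 * m) → Prop := fun a b => b = finRotate (2 * m) (remP hσ hl hy a)
  let r' : Fin (2 * (m + 1)) → Fin (2 * (m + 1)) → Prop :=
    fun a b => b = finRotate (2 * (m + 1)) (σ a)
  have htp : ∀ x, remP hσ hl hy x = remFun σ y x := fun x => rfl
  let κ : Fin (2 * m) → Fin (2 * (m + 1)) := fun x =>
    if (x : ℕ) = 0 then lst m else ⟨emb y x, emb_lt x.2⟩
  let μ : Fin (2 * (m + 1)) → Option (Quot r) := fun u =>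
    if (u : ℕ) = 0 ∨ (u : ℕ) = y then none
    else if (u : ℕ) = 2 * m + 1 then some (Quot.mk r ⟨0, by omega⟩)
    else if h : col y u < 2 * m then some (Quot.mk r ⟨col y u, h⟩) else none
  have key : ∀ a, κ (finRotate (2 * m) (remFun σ y a)) = finRotate (2 * (m + 1)) (σ (κ a)) := by
    intro a
    have ha := a.2
    obtain ⟨f1, f2⟩ := emb_facts hσ hl a
    have f3 := (σ ⟨emb y a, emb_lt a.2⟩).2
    have hrv := rem_val hσ hl hy a
    have hr := (remFun σ y a).2
    apply Fin.ext
    rw [rot_val]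
    by_cases h : (a : ℕ) = 0
    · have e1 : κ a = lst m := if_pos h
      have e2 : (⟨emb y a, emb_lt a.2⟩ : Fin (2 * (m + 1))) = ⟨0, by omega⟩ := by
        apply Fin.ext
        simp only
        unfold emb
        split_ifs <;> omega
      rw [e2] at hrv
      rw [e1, hl, Nat.mod_eq_of_lt (by omega)]
      have e3 : (remFun σ y a : ℕ) = y - 1 := by
        rw [hrv]
        unfold col
        split_ifs <;> omega
      by_cases hy3 : y = 2 * m
      · have e4 : (finRotate (2 * m) (remFun σ y a) : ℕ) = 0 := by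
          rw [rot_val, e3, show y - 1 + 1 = 2 * m by omega, Nat.mod_self]
        simp only [κ]
        rw [if_pos e4]
        simp only [lst]
        omega
      · have e4 : (finRotate (2 * m) (remFun σ y a) : ℕ) = y := by
          rw [rot_val, e3, Nat.mod_eq_of_lt (by omega)]
          omega
        simp only [κ]
        rw [if_neg (by omega)]
        simp only [e4]
        unfold emb
        split_ifs <;> omega
    · have e1 : κ a = ⟨emb y a, emb_lt a.2⟩ := if_neg h
      rw [e1]
      have f4 : (σ ⟨emb y a, emb_lt a.2⟩ : ℕ) ≠ y - 1 := by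
        intro hcon
        have h1 : σ ⟨emb y a, emb_lt a.2⟩ = σ ⟨0, by omega⟩ := Fin.ext (by omega)
        have h2 := congrArg Fin.val (σ.injective h1)
        simp only at h2
        unfold emb at h2
        split_ifs at h2
        omega
      rw [Nat.mod_eq_of_lt (by omega)]
      set z : ℕ := (σ ⟨emb y a, emb_lt a.2⟩ : ℕ) with hz
      by_cases hzl : z = 2 * m
      · have e4 : (finRotate (2 * m) (remFun σ y a) : ℕ) = 0 := by
          rw [rot_val, hrv]
          have : col y z + 1 = 2 * m := by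
            unfold col
            split_ifs <;> omega
          rw [this, Nat.mod_self]
        simp only [κ]
        rw [if_pos e4]
        simp only [lst]
        omega
      · have e4 : (finRotate (2 * m) (remFun σ y a) : ℕ) = col y z + 1 := by
          rw [rot_val, hrv, Nat.mod_eq_of_lt]
          unfold col
          split_ifs <;> omega
        simp only [κ]
        rw [if_neg (by omega)]
        simp only [e4]
        unfold emb col
        split_ifs <;> omega
  have hμκ : ∀ a, μ (κ a) = some (Quot.mk r a) := by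
    intro a
    have ha := a.2
    by_cases h : (a : ℕ) = 0
    · have e1 : κ a = lst m := if_pos h
      rw [e1]
      simp only [μ, lst]
      rw [if_neg (by omega), if_pos trivial]
      congr 1
      congr 1
      exact Fin.ext h.symm
    · have e1 : κ a = ⟨emb y a, emb_lt a.2⟩ := if_neg h
      rw [e1]
      have e2 : col y (emb y a) = a := col_emb y a
      have e3 : ¬ (emb y a = 0 ∨ emb y a = y) := by
        rintro (h7 | h7) <;> unfold emb at h7 <;> split_ifs at h7 <;> omega
      have e4 : emb y a ≠ 2 * m + 1 := by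
        unfold emb
        split_ifs <;> omega
      simp only [μ]
      rw [if_neg e3, if_neg e4, dif_pos (by rw [e2]; exact ha)]
      congr 1
      congr 1
      exact Fin.ext e2
  have hcov : ∀ u : Fin (2 * (m + 1)), ((u : ℕ) = 0 ∨ (u : ℕ) = y) ∨ ∃ a, u = κ a := by
    intro u
    have hu := u.2
    by_cases h1 : (u : ℕ) = 0 ∨ (u : ℕ) = y
    · exact Or.inl h1
    by_cases h2 : (u : ℕ) = 2 * m + 1
    · refine Or.inr ⟨⟨0, by omega⟩, ?_⟩
      have e1 : κ ⟨0, by omega⟩ = lst m := if_pos rfl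
      rw [e1]
      exact Fin.ext h2
    · have h3 : col y u < 2 * m := by
        unfold col
        split_ifs <;> omega
      have h4 : col y u ≠ 0 := by
        unfold col
        split_ifs <;> omega
      refine Or.inr ⟨⟨col y u, h3⟩, ?_⟩
      have e1 : κ ⟨col y u, h3⟩ = ⟨emb y (col y u), emb_lt h3⟩ := if_neg h4
      rw [e1]
      apply Fin.ext
      simp only
      rw [emb_col (fun h => h1 (Or.inr h))]
  have hrot0 : ∀ u : Fin (2 * (m + 1)), (u : ℕ) = 0 → (finRotate (2 * (m + 1)) (σ u) : ℕ) = y := by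
    intro u hu
    have : u = ⟨0, by omega⟩ := Fin.ext hu
    rw [this, rot_val, h0, Nat.mod_eq_of_lt (by omega)]
  have hroty : ∀ u : Fin (2 * (m + 1)), (u : ℕ) = y → (finRotate (2 * (m + 1)) (σ u) : ℕ) = 0 := by
    intro u hu
    have h1 : u = σ (lst m) := Fin.ext (hu.trans hl.symm)
    rw [h1, hσ, rot_val]
    simp only [lst]
    rw [show 2 * m + 1 + 1 = 2 * (m + 1) by ring, Nat.mod_self]
  have hμ0 : ∀ u : Fin (2 * (m + 1)), ((u : ℕ) = 0 ∨ (u : ℕ) = y) → μ u = none :=
    fun u hu => if_pos hu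
  have hμ : ∀ u v, r' u v → μ u = μ v := by
    intro u v huv
    have huv : v = finRotate (2 * (m + 1)) (σ u) := huv
    rcases hcov u with h1 | ⟨a, rfl⟩
    · rw [hμ0 u h1, hμ0 v]
      rcases h1 with h1 | h1
      · right
        rw [huv]
        exact hrot0 u h1
      · left
        rw [huv]
        exact hroty u h1
    · rw [← key] at huv
      rw [huv, hμκ, hμκ]
      congr 1
      exact Quot.sound (show r a _ from rfl)
  have hκ : ∀ a b, r a b → Quot.mk r' (κ a) = Quot.mk r' (κ b) := by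
    intro a b hab
    have hab : b = finRotate (2 * m) (remFun σ y a) := hab
    refine Quot.sound ?_
    change κ b = finRotate (2 * (m + 1)) (σ (κ a))
    rw [← key, hab]
  let E : Quot r' ≃ Option (Quot r) :=
    { toFun := Quot.lift μ hμ
      invFun := fun o => o.elim (Quot.mk r' ⟨0, by omega⟩)
        (Quot.lift (fun x : Fin (2 * m) => Quot.mk r' (κ x)) hκ)
      left_inv := by
        intro q
        induction q using Quot.ind with
        | mk u =>
          change Option.elim (μ u) _ _ = _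
          rcases hcov u with h1 | ⟨a, rfl⟩
          · rw [hμ0 u h1]
            change Quot.mk r' _ = _
            rcases h1 with h1 | h1
            · congr 1
              exact Fin.ext h1.symm
            · refine Quot.sound (Fin.ext ?_)
              rw [hrot0 _ rfl]
              exact h1
          · rw [hμκ]
            rfl
      right_inv := by
        intro o
        rcases o with _ | q
        · exact hμ0 _ (Or.inl rfl)
        · induction q using Quot.ind with
          | mk x => exact hμκ x }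
  unfold numVert
  have h1 : Nat.card (Quot r') = Nat.card (Quot r) + 1 := by
    rw [Nat.card_congr E, Finite.card_option]
  exact h1

lemma card_two_le (hm : 1 ≤ m) (g : ℕ) :
    Nat.card {X : Omega (m + 1) g // Two X.1 ⟨0, by omega⟩} ≤ Nat.card (Omega m g) := by
  classical
  have hy : ∀ X : {X : Omega (m + 1) g // Two X.1 ⟨0, by omega⟩},
      (X.1.1 ⟨0, by omega⟩ : ℕ) + 1 ≤ 2 * m ∧ 2 ≤ (X.1.1 ⟨0, by omega⟩ : ℕ) + 1 := by
    intro X
    obtain ⟨h1, h2⟩ := two_zero X.1.2.1 X.2
    have h3 : (X.1.1 ⟨0, by omega⟩ : ℕ) ≠ 0 := fun h => X.1.2.2.1 ⟨0, by omega⟩ (Fin.ext h)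
    have h4 : (X.1.1 ⟨0, by omega⟩ : ℕ) + 1 ≠ 2 * m + 1 := by
      intro h
      rw [h] at h1
      exact X.1.2.2.1 (lst m) (Fin.ext h1)
    omega
  let F : {X : Omega (m + 1) g // Two X.1 ⟨0, by omega⟩} → Omega m g := fun X =>
    ⟨remP X.1.2.1 (two_zero X.1.2.1 X.2).1 (hy X).1,
      fun x => rem_inv X.1.2.1 (two_zero X.1.2.1 X.2).1 (hy X).1 x, by
      intro x hx
      have hx : remFun X.1.1 (X.1.1 ⟨0, by omega⟩ + 1) x = x := hx
      have h1 := emb_rem X.1.2.1 (two_zero X.1.2.1 X.2).1 (hy X).1 x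
      apply X.1.2.2.1 _
      rw [← h1]
      congr 1
      rw [hx], by
      have h1 := numVert_rem hm X.1.2.1 (two_zero X.1.2.1 X.2).1 (hy X).1 rfl (hy X).2
      have h2 := X.1.2.2.2
      omega⟩
  refine Nat.card_le_card_of_injective F ?_
  intro X X' hXX
  have h1 : ∀ x, remFun X.1.1 (X.1.1 ⟨0, by omega⟩ + 1) x =
      remFun X'.1.1 (X'.1.1 ⟨0, by omega⟩ + 1) x := by
    intro x
    have := congrArg (fun Z : Omega m g => Z.1 x) hXX
    exact this
  have h2 : ∀ X : {X : Omega (m + 1) g // Two X.1 ⟨0, by omega⟩},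
      (remFun X.1.1 (X.1.1 ⟨0, by omega⟩ + 1) ⟨0, by omega⟩ : ℕ) = X.1.1 ⟨0, by omega⟩ := by
    intro X
    rw [rem_val X.1.2.1 (two_zero X.1.2.1 X.2).1 (hy X).1]
    have e2 : (⟨emb (X.1.1 ⟨0, by omega⟩ + 1) 0, emb_lt (by omega)⟩ : Fin (2 * (m + 1)))
        = ⟨0, by omega⟩ := by
      apply Fin.ext
      simp only
      unfold emb
      split_ifs <;> omega
    simp only
    rw [e2]
    unfold col
    split_ifs <;> omega
  have h3 : (X.1.1 ⟨0, by omega⟩ : ℕ) = X'.1.1 ⟨0, by omega⟩ := by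
    rw [← h2 X, ← h2 X', h1]
  have hl : X.1.1 (lst m) = X'.1.1 (lst m) := by
    apply Fin.ext
    rw [(two_zero X.1.2.1 X.2).1, (two_zero X'.1.2.1 X'.2).1, h3]
  apply Subtype.ext
  apply Subtype.ext
  ext z : 1
  by_cases z1 : z = lst m
  · rw [z1, hl]
  by_cases z2 : z = X.1.1 (lst m)
  · rw [z2, X.1.2.1]
    conv_rhs => rw [hl]
    rw [X'.1.2.1]
  · have hz := z.2
    have z1' : (z : ℕ) ≠ 2 * m + 1 := fun h => z1 (Fin.ext h)
    have z2' : (z : ℕ) ≠ X.1.1 ⟨0, by omega⟩ + 1 := by
      intro h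
      apply z2
      apply Fin.ext
      rw [(two_zero X.1.2.1 X.2).1, h]
    have hy1 := (hy X).1
    have h4 : col (X.1.1 ⟨0, by omega⟩ + 1) z < 2 * m := by
      unfold col
      split_ifs <;> omega
    have h5 := emb_rem X.1.2.1 (two_zero X.1.2.1 X.2).1 (hy X).1 ⟨_, h4⟩
    have h6 := emb_rem X'.1.2.1 (two_zero X'.1.2.1 X'.2).1 (hy X').1 ⟨_, h4⟩
    have e1 : (⟨emb (X.1.1 ⟨0, by omega⟩ + 1) (col (X.1.1 ⟨0, by omega⟩ + 1) z),
        emb_lt h4⟩ : Fin (2 * (m + 1))) = z := Fin.ext (emb_col z2')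
    have e2 : (⟨emb (X'.1.1 ⟨0, by omega⟩ + 1) (col (X.1.1 ⟨0, by omega⟩ + 1) z),
        emb_lt h4⟩ : Fin (2 * (m + 1))) = z := by
      apply Fin.ext
      simp only
      rw [← h3]
      exact emb_col z2'
    simp only at h5 h6
    rw [e1] at h5
    rw [e2] at h6
    rw [← h5, ← h6]
    apply Fin.ext
    simp only
    rw [h1]
    exact congrArg (fun a => emb (a + 1)
      (remFun X'.1.1 (X'.1.1 ⟨0, by omega⟩ + 1) ⟨_, h4⟩)) h3


section Gen

variable {σ : Equiv.Perm (Fin (2 * (m + 1)))} {y : ℕ}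

/-- the vertex permutation -/
def tu {k : ℕ} (σ : Equiv.Perm (Fin (2 * k))) (x : Fin (2 * k)) : Fin (2 * k) :=
  finRotate (2 * k) (σ x)

lemma tu_inj {k : ℕ} (σ : Equiv.Perm (Fin (2 * k))) : Function.Injective (tu σ) :=
  fun _ _ h => σ.injective ((finRotate (2 * k)).injective h)

/-- the gluing relation -/
def rl {k : ℕ} (σ : Equiv.Perm (Fin (2 * k))) : Fin (2 * k) → Fin (2 * k) → Prop :=
  fun a b => b = finRotate (2 * k) (σ a)

/-- the orbit of `x` has exactly `k` elements -/
def Per {n : ℕ} (σ : Equiv.Perm (Fin (2 * n))) (x : Fin (2 * n)) (k : ℕ) : Prop :=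
  (tu σ)^[k] x = x ∧ ∀ j, 0 < j → j < k → (tu σ)^[j] x ≠ x

/-- the side before the vertex `x` is not a loop -/
def Ent {n : ℕ} (σ : Equiv.Perm (Fin (2 * n))) (x : Fin (2 * n)) : Prop :=
  Quot.mk (rl σ) ((finRotate (2 * n)).symm x) ≠ Quot.mk (rl σ) x

/-- the small sides in the big polygon -/
def ep (y : ℕ) (a : Fin (2 * m)) : Fin (2 * (m + 1)) := ⟨emb y a, emb_lt a.2⟩

lemma keyB (hσ : ∀ x, σ (σ x) = x) (hl : (σ (lst m) : ℕ) = y) (hy : y ≤ 2 * m) (hy1 : 1 ≤ y)
    (a : Fin (2 * m)) : ((σ (ep y a) : ℕ) = y - 1 →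
        (tu σ (ep y a) : ℕ) = y ∧ (tu (remP hσ hl hy) a : ℕ) = y % (2 * m)) ∧
      ((σ (ep y a) : ℕ) ≠ y - 1 → (tu σ (ep y a) : ℕ) ≠ y ∧
        ((tu σ (ep y a) : ℕ) = 2 * m + 1 → (tu (remP hσ hl hy) a : ℕ) = 0) ∧
        ((tu σ (ep y a) : ℕ) ≠ 2 * m + 1 → (tu (remP hσ hl hy) a : ℕ) = col y (tu σ (ep y a)))) := by
  have ha := a.2
  obtain ⟨f1, f2⟩ := emb_facts hσ hl a
  have f3 := (σ (ep y a)).2
  have f1 : (σ (ep y a) : ℕ) ≠ y := f1
  have f2 : (σ (ep y a) : ℕ) ≠ 2 * m + 1 := f2
  have hrv : (remP hσ hl hy a : ℕ) = col y (σ (ep y a)) := rem_val hσ hl hy a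
  have e1 : (tu σ (ep y a) : ℕ) = σ (ep y a) + 1 := by
    unfold tu
    rw [rot_val, Nat.mod_eq_of_lt (by omega)]
  have e2 : (tu (remP hσ hl hy) a : ℕ) = (col y (σ (ep y a)) + 1) % (2 * m) := by
    unfold tu
    rw [rot_val, hrv]
  rw [e1, e2]
  set z : ℕ := (σ (ep y a) : ℕ) with hz
  refine ⟨fun h => ⟨by omega, ?_⟩, fun h => ⟨by omega, fun h2 => ?_, fun h2 => ?_⟩⟩
  · congr 1
    unfold col
    split_ifs <;> omega
  · have : col y z + 1 = 2 * m := by
      unfold col
      split_ifs <;> omega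
    rw [this, Nat.mod_self]
  · have h3 : col y z + 1 = col y (z + 1) := by
      unfold col
      split_ifs <;> omega
    have h4 : col y (z + 1) < 2 * m := by
      unfold col
      split_ifs <;> omega
    rw [h3, Nat.mod_eq_of_lt h4]

lemma ep_ne (a : Fin (2 * m)) : ep y a ≠ lst m ∧ (ep y a : ℕ) ≠ y := by
  have ha := a.2
  constructor
  · intro h
    have h := congrArg Fin.val h
    simp only [ep, lst] at h
    unfold emb at h
    split_ifs at h <;> omega
  · simp only [ep]
    unfold emb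
    split_ifs <;> omega

lemma ep_col (hy : y ≤ 2 * m) {u : Fin (2 * (m + 1))} (h1 : u ≠ lst m) (h2 : (u : ℕ) ≠ y) :
    ∃ a : Fin (2 * m), (a : ℕ) = col y u ∧ ep y a = u := by
  have hu := u.2
  have h1' : (u : ℕ) ≠ 2 * m + 1 := fun h => h1 (Fin.ext h)
  have h3 : col y u < 2 * m := by
    unfold col
    split_ifs <;> omega
  exact ⟨⟨col y u, h3⟩, rfl, Fin.ext (emb_col h2)⟩

lemma tu_y (hσ : ∀ x, σ (σ x) = x) (hl : (σ (lst m) : ℕ) = y) {u : Fin (2 * (m + 1))}
    (hu : (u : ℕ) = y) : tu σ u = ⟨0, by omega⟩ := by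
  have h1 : u = σ (lst m) := Fin.ext (hu.trans hl.symm)
  apply Fin.ext
  unfold tu
  rw [h1, hσ, rot_val]
  simp only [lst]
  rw [show 2 * m + 1 + 1 = 2 * (m + 1) by ring, Nat.mod_self]

/-- the orbit of `0` in the small polygon -/
lemma walk (hσ : ∀ x, σ (σ x) = x) (hl : (σ (lst m) : ℕ) = y) (hy : y ≤ 2 * m) (hy1 : 1 ≤ y)
    (hE : Ent σ ⟨0, by omega⟩) {k : ℕ} (hk : Per σ ⟨0, by omega⟩ k) (i : ℕ) (hi : i < k) :
    ((tu (remP hσ hl hy))^[i] ⟨0, by omega⟩ : ℕ) =
      (if ((tu σ)^[i] ⟨0, by omega⟩ : ℕ) = y then y % (2 * m)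
        else col y ((tu σ)^[i] ⟨0, by omega⟩)) ∧ (tu σ)^[i] ⟨0, by omega⟩ ≠ lst m := by
  induction i with
  | zero =>
    constructor
    · have h0 : (((tu σ)^[0] ⟨0, by omega⟩ : Fin (2 * (m + 1))) : ℕ) = 0 := rfl
      rw [h0, if_neg (by omega)]
      change 0 = col y 0
      unfold col
      split_ifs <;> omega
    · intro h
      have := congrArg Fin.val h
      simp [lst] at this
  | succ i ih =>
    obtain ⟨ih1, ih2⟩ := ih (by omega)
    rw [Function.iterate_succ_apply', Function.iterate_succ_apply']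
    set u := (tu σ)^[i] ⟨0, by omega⟩ with hu
    have huy : (u : ℕ) ≠ y := by
      intro h
      have h1 := tu_y hσ hl h
      apply hk.2 (i + 1) (by omega) hi
      rw [Function.iterate_succ_apply', ← hu, h1]
    rw [if_neg huy] at ih1
    obtain ⟨a, ha1, ha2⟩ := ep_col hy ih2 huy
    have ha3 : (tu (remP hσ hl hy))^[i] ⟨0, by omega⟩ = a := Fin.ext (ih1.trans ha1.symm)
    rw [ha3, ← ha2]
    have hne : tu σ (ep y a) ≠ lst m := by
      intro h
      have h1 : ∀ j, Quot.mk (rl σ) ((tu σ)^[j] ⟨0, by omega⟩) = Quot.mk (rl σ) ⟨0, by omega⟩ := by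
        intro j
        induction j with
        | zero => rfl
        | succ j ihj =>
          rw [Function.iterate_succ_apply', ← ihj]
          exact (Quot.sound (show rl σ _ (tu σ _) from rfl)).symm
      have h2 := h1 (i + 1)
      rw [Function.iterate_succ_apply', ← hu, ← ha2, h] at h2
      apply hE
      rw [← h2]
      congr 1
    have hne' : (tu σ (ep y a) : ℕ) ≠ 2 * m + 1 := fun h => hne (Fin.ext h)
    obtain ⟨k1, k2⟩ := keyB hσ hl hy hy1 a
    by_cases h : (σ (ep y a) : ℕ) = y - 1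
    · obtain ⟨h1, h2⟩ := k1 h
      rw [if_pos h1, h2]
      exact ⟨rfl, hne⟩
    · obtain ⟨h1, _, h3⟩ := k2 h
      rw [if_neg h1, h3 hne']
      exact ⟨rfl, hne⟩

lemma last_y (hσ : ∀ x, σ (σ x) = x) (hl : (σ (lst m) : ℕ) = y) {k : ℕ} (hk1 : 1 ≤ k)
    (hk : Per σ ⟨0, by omega⟩ k) : ((tu σ)^[k - 1] ⟨0, by omega⟩ : ℕ) = y := by
  have h1 : tu σ ((tu σ)^[k - 1] ⟨0, by omega⟩) = ⟨0, by omega⟩ := by
    rw [← Function.iterate_succ_apply' (tu σ) (k - 1), show (k - 1).succ = k by omega]
    exact hk.1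
  have h2 := tu_y hσ hl (u := σ (lst m)) hl
  have h3 := tu_inj σ (h1.trans h2.symm)
  rw [h3, hl]

lemma det_y (hσ : ∀ x, σ (σ x) = x) (hl : (σ (lst m) : ℕ) = y) (hy : y ≤ 2 * m) (hy1 : 1 ≤ y)
    (hE : Ent σ ⟨0, by omega⟩) {k : ℕ} (hk1 : 1 ≤ k) (hk : Per σ ⟨0, by omega⟩ k) :
    ((tu (remP hσ hl hy))^[k - 1] ⟨0, by omega⟩ : ℕ) = y % (2 * m) := by
  have h1 := (walk hσ hl hy hy1 hE hk (k - 1) (by omega)).1
  rw [if_pos (last_y hσ hl hk1 hk)] at h1
  exact h1

lemma numVert_gen (hm : 1 ≤ m) (hσ : ∀ x, σ (σ x) = x) (hl : (σ (lst m) : ℕ) = y)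
    (hy : y ≤ 2 * m) (hy1 : 1 ≤ y) (hE : Ent σ ⟨0, by omega⟩) {k : ℕ} (hk1 : 1 ≤ k)
    (hk : Per σ ⟨0, by omega⟩ k) : numVert σ = numVert (remP hσ hl hy) + 1 := by
  classical
  set R := rl (remP hσ hl hy) with hR
  set R' := rl σ with hR'
  set z0 : Fin (2 * (m + 1)) := ⟨0, by omega⟩ with hz0
  set s0 : Fin (2 * m) := ⟨0, by omega⟩ with hs0
  have hE' : Quot.mk R' (lst m) ≠ Quot.mk R' z0 := by
    intro h
    apply hE
    rw [← h]
    congr 1
  have hstep : ∀ u, Quot.mk R' (tu σ u) = Quot.mk R' u := fun u =>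
    (Quot.sound (show R' u (tu σ u) from rfl)).symm
  have hsteps : ∀ u, Quot.mk R (tu (remP hσ hl hy) u) = Quot.mk R u := fun u =>
    (Quot.sound (show R u (tu _ u) from rfl)).symm
  have hO : ∀ u, Quot.mk R' u = Quot.mk R' z0 → ∃ i < k, u = (tu σ)^[i] z0 := by
    intro u hu
    let D : Fin (2 * (m + 1)) → Prop := fun u => ∃ i < k, u = (tu σ)^[i] z0
    have hD : ∀ u v, R' u v → D u = D v := by
      intro u v huv
      have huv : v = tu σ u := huv
      apply propext
      constructor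
      · rintro ⟨i, hi, rfl⟩
        rcases Nat.lt_or_ge (i + 1) k with h | h
        · exact ⟨i + 1, h, by rw [huv, Function.iterate_succ_apply']⟩
        · refine ⟨0, by omega, ?_⟩
          rw [huv, ← Function.iterate_succ_apply' (tu σ) i, show i.succ = k by omega]
          exact hk.1
      · rintro ⟨j, hj, hv⟩
        rcases j with _ | j
        · refine ⟨k - 1, by omega, tu_inj σ ?_⟩
          rw [← huv, hv, ← Function.iterate_succ_apply' (tu σ) (k - 1),
            show (k - 1).succ = k by omega]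
          exact hk.1.symm
        · refine ⟨j, by omega, tu_inj σ ?_⟩
          rw [← huv, hv, Function.iterate_succ_apply']
    have h1 : Quot.lift D hD (Quot.mk R' u) = Quot.lift D hD (Quot.mk R' z0) := by rw [hu]
    have h2 : D u = D z0 := h1
    have h3 : D z0 := ⟨0, by omega, rfl⟩
    rw [← h2] at h3
    exact h3
  have hS : ∀ i, Quot.mk R ((tu (remP hσ hl hy))^[i] s0) = Quot.mk R s0 := by
    intro i
    induction i with
    | zero => rfl
    | succ i ih => rw [Function.iterate_succ_apply', hsteps, ih]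
  have hc0 : ∀ a : Fin (2 * m), Quot.mk R' (ep y a) = Quot.mk R' z0 →
      Quot.mk R a = Quot.mk R s0 := by
    intro a ha
    obtain ⟨i, hi, h1⟩ := hO _ ha
    have h2 := (walk hσ hl hy hy1 hE hk i hi).1
    rw [← hz0, ← h1, if_neg (ep_ne a).2] at h2
    have h3 : (tu (remP hσ hl hy))^[i] s0 = a := Fin.ext (h2.trans (col_emb y a))
    rw [← h3]
    exact hS i
  have hcy : ∀ a : Fin (2 * m), (a : ℕ) = y % (2 * m) → Quot.mk R a = Quot.mk R s0 := by
    intro a ha
    have h2 := det_y hσ hl hy hy1 hE hk1 hk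
    have h3 : (tu (remP hσ hl hy))^[k - 1] s0 = a := Fin.ext (h2.trans ha.symm)
    rw [← h3]
    exact hS _
  have hep0 : ep y s0 = z0 := by
    apply Fin.ext
    simp only [ep, hs0, hz0]
    unfold emb
    split_ifs <;> omega
  have hyz : ∀ u : Fin (2 * (m + 1)), (u : ℕ) = y → Quot.mk R' u = Quot.mk R' z0 := by
    intro u hu
    rw [← hstep u, tu_y hσ hl hu]
  have htl : (tu σ (lst m) : ℕ) = y + 1 := by
    unfold tu
    rw [rot_val, hl, Nat.mod_eq_of_lt (by omega)]
  let μ : Fin (2 * (m + 1)) → Option (Quot R) := fun u =>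
    if Quot.mk R' u = Quot.mk R' z0 then none
    else if (u : ℕ) = 2 * m + 1 then some (Quot.mk R s0)
    else if h : col y u < 2 * m then some (Quot.mk R ⟨col y u, h⟩) else none
  have hμ0 : ∀ u, Quot.mk R' u = Quot.mk R' z0 → μ u = none := fun u hu => if_pos hu
  have hμl : μ (lst m) = some (Quot.mk R s0) := by
    simp only [μ]
    rw [if_neg hE', if_pos (by rfl)]
  have hμe : ∀ a : Fin (2 * m), Quot.mk R' (ep y a) ≠ Quot.mk R' z0 →
      μ (ep y a) = some (Quot.mk R a) := by
    intro a ha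
    have e2 : col y (ep y a) = a := col_emb y a
    have e4 : (ep y a : ℕ) ≠ 2 * m + 1 := fun h => (ep_ne a).1 (Fin.ext h)
    simp only [μ]
    rw [if_neg ha, if_neg e4, dif_pos (by rw [e2]; exact a.2)]
    congr 1
    congr 1
    exact Fin.ext e2
  have hμ : ∀ u v, R' u v → μ u = μ v := by
    intro u v huv
    have huv : v = tu σ u := huv
    have hcl : Quot.mk R' v = Quot.mk R' u := by rw [huv, hstep]
    by_cases c : Quot.mk R' u = Quot.mk R' z0
    · rw [hμ0 u c, hμ0 v (hcl.trans c)]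
    by_cases hul : u = lst m
    · rw [hul] at huv hcl c ⊢
      have hv : (v : ℕ) = y + 1 := by rw [huv, htl]
      by_cases hvl : v = lst m
      · rw [hvl]
      · obtain ⟨b, hb1, hb2⟩ := ep_col hy hvl (by omega)
        have hb3 : (b : ℕ) = y % (2 * m) := by
          have hb := b.2
          have : col y v = y := by
            unfold col
            split_ifs <;> omega
          rw [hb1, this, Nat.mod_eq_of_lt (by omega)]
        rw [hμl, ← hb2, hμe b (by rw [hb2, hcl]; exact c), hcy b hb3]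
    · have huy : (u : ℕ) ≠ y := fun h => c (hyz u h)
      obtain ⟨a, _, ha2⟩ := ep_col hy hul huy
      subst ha2
      obtain ⟨k1, k2⟩ := keyB hσ hl hy hy1 a
      by_cases h : (σ (ep y a) : ℕ) = y - 1
      · exfalso
        apply c
        rw [← hcl, huv]
        exact hyz _ (k1 h).1
      · obtain ⟨h1, h2, h3⟩ := k2 h
        rw [← huv] at h1 h2 h3
        rw [hμe a c, ← hsteps a]
        by_cases hvl : v = lst m
        · have e : tu (remP hσ hl hy) a = s0 := Fin.ext (h2 (by rw [hvl]; rfl))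
          rw [hvl, hμl, e]
        · have hvl' : (v : ℕ) ≠ 2 * m + 1 := fun h => hvl (Fin.ext h)
          obtain ⟨b, hb1, hb2⟩ := ep_col hy hvl h1
          have e : tu (remP hσ hl hy) a = b := Fin.ext ((h3 hvl').trans hb1.symm)
          rw [e, ← hb2, hμe b (by rw [hb2, hcl]; exact c)]
  let ψ : Fin (2 * m) → Quot R' := fun a =>
    if Quot.mk R' (ep y a) = Quot.mk R' z0 then Quot.mk R' (lst m) else Quot.mk R' (ep y a)
  have hψ0 : ψ s0 = Quot.mk R' (lst m) := if_pos (by rw [hep0])
  have hψ : ∀ a b, R a b → ψ a = ψ b := by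
    intro a b hab
    have hab : b = tu (remP hσ hl hy) a := hab
    obtain ⟨k1, k2⟩ := keyB hσ hl hy hy1 a
    by_cases h : (σ (ep y a) : ℕ) = y - 1
    · obtain ⟨h1, h2⟩ := k1 h
      have e1 : Quot.mk R' (ep y a) = Quot.mk R' z0 := by
        rw [← hstep]
        exact hyz _ h1
      have e2 : ψ a = Quot.mk R' (lst m) := if_pos e1
      rw [e2]
      by_cases hy3 : y = 2 * m
      · have e3 : b = s0 := by
          apply Fin.ext
          rw [hab, h2, hy3, Nat.mod_self]
        rw [e3, hψ0]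
      · rw [Nat.mod_eq_of_lt (by omega), ← hab] at h2
        have e3 : ep y b = tu σ (lst m) := by
          apply Fin.ext
          rw [htl]
          simp only [ep, h2]
          unfold emb
          split_ifs <;> omega
        have e4 : Quot.mk R' (ep y b) = Quot.mk R' (lst m) := by rw [e3, hstep]
        have e5 : ψ b = Quot.mk R' (ep y b) := if_neg (by rw [e4]; exact hE')
        rw [e5, e4]
    · obtain ⟨h1, h2, h3⟩ := k2 h
      by_cases hvl : tu σ (ep y a) = lst m
      · have e : b = s0 := Fin.ext (by rw [hab]; exact h2 (by rw [hvl]; rfl))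
        have e4 : Quot.mk R' (ep y a) = Quot.mk R' (lst m) := by rw [← hstep, hvl]
        have e5 : ψ a = Quot.mk R' (ep y a) := if_neg (by rw [e4]; exact hE')
        rw [e, hψ0, e5, e4]
      · have hvl' : (tu σ (ep y a) : ℕ) ≠ 2 * m + 1 := fun h => hvl (Fin.ext h)
        obtain ⟨b', hb1, hb2⟩ := ep_col hy hvl h1
        have e : b = b' := Fin.ext (by rw [hab, h3 hvl', hb1])
        have e4 : Quot.mk R' (ep y b) = Quot.mk R' (ep y a) := by rw [e, hb2, hstep]
        simp only [ψ]
        rw [e4]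
  let E : Quot R' ≃ Option (Quot R) :=
    { toFun := Quot.lift μ hμ
      invFun := fun o => o.elim (Quot.mk R' z0) (Quot.lift ψ hψ)
      left_inv := by
        intro q
        induction q using Quot.ind with
        | mk u =>
          change Option.elim (μ u) _ _ = _
          by_cases c : Quot.mk R' u = Quot.mk R' z0
          · rw [hμ0 u c]
            exact c.symm
          by_cases hul : u = lst m
          · rw [hul, hμl]
            exact hψ0
          · have huy : (u : ℕ) ≠ y := fun h => c (hyz u h)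
            obtain ⟨a, _, ha2⟩ := ep_col hy hul huy
            subst ha2
            rw [hμe a c]
            exact if_neg c
      right_inv := by
        intro o
        rcases o with _ | q
        · exact hμ0 _ rfl
        · induction q using Quot.ind with
          | mk a =>
            change Quot.lift μ hμ (ψ a) = _
            by_cases c : Quot.mk R' (ep y a) = Quot.mk R' z0
            · have e : ψ a = Quot.mk R' (lst m) := if_pos c
              rw [e, hc0 a c]
              exact hμl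
            · have e : ψ a = Quot.mk R' (ep y a) := if_neg c
              rw [e]
              exact hμe a c }
  have h1 : Nat.card (Quot R') = Nat.card (Quot R) + 1 := by
    rw [Nat.card_congr E, Finite.card_option]
  exact h1

end Gen

lemma card_per_le (hm : 1 ≤ m) (g k : ℕ) (hk2 : 2 ≤ k) :
    Nat.card {X : Omega (m + 1) g // Per X.1 ⟨0, by omega⟩ k ∧ Ent X.1 ⟨0, by omega⟩} ≤
      Nat.card (Omega m g) := by
  classical
  have hy : ∀ X : {X : Omega (m + 1) g // Per X.1 ⟨0, by omega⟩ k ∧ Ent X.1 ⟨0, by omega⟩},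
      (X.1.1 (lst m) : ℕ) ≤ 2 * m ∧ 1 ≤ (X.1.1 (lst m) : ℕ) := by
    intro X
    have h0 := (X.1.1 (lst m)).2
    have h3 : (X.1.1 (lst m) : ℕ) ≠ 2 * m + 1 := fun h => X.1.2.2.1 (lst m) (Fin.ext h)
    have h4 : (X.1.1 (lst m) : ℕ) ≠ 0 := by
      intro h
      have h5 := tu_y X.1.2.1 (y := 0) h (u := ⟨0, by omega⟩) rfl
      exact X.2.1.2 1 (by omega) (by omega) h5
    omega
  let F : {X : Omega (m + 1) g // Per X.1 ⟨0, by omega⟩ k ∧ Ent X.1 ⟨0, by omega⟩} →
      Omega m g := fun X =>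
    ⟨remP X.1.2.1 rfl (hy X).1, fun x => rem_inv X.1.2.1 rfl (hy X).1 x, by
      intro x hx
      have hx : remFun X.1.1 (X.1.1 (lst m)) x = x := hx
      have h1 := emb_rem X.1.2.1 rfl (hy X).1 x
      apply X.1.2.2.1 _
      rw [← h1]
      congr 1
      rw [hx], by
      have h1 := numVert_gen hm X.1.2.1 rfl (hy X).1 (hy X).2 X.2.2 (by omega) X.2.1
      have h2 := X.1.2.2.2
      omega⟩
  refine Nat.card_le_card_of_injective F ?_
  intro X X' hXX
  have hP : remP X.1.2.1 rfl (hy X).1 = remP X'.1.2.1 rfl (hy X').1 := congrArg Subtype.val hXX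
  have h1 : ∀ x, remFun X.1.1 (X.1.1 (lst m)) x = remFun X'.1.1 (X'.1.1 (lst m)) x := by
    intro x
    have := congrArg (fun Z : Equiv.Perm (Fin (2 * m)) => Z x) hP
    exact this
  have d1 := det_y X.1.2.1 rfl (hy X).1 (hy X).2 X.2.2 (by omega) X.2.1
  have d2 := det_y X'.1.2.1 rfl (hy X').1 (hy X').2 X'.2.2 (by omega) X'.2.1
  rw [hP, d2] at d1
  have h3 : (X.1.1 (lst m) : ℕ) = X'.1.1 (lst m) := by
    have a1 := hy X
    have a2 := hy X'
    rcases Nat.lt_or_ge (X.1.1 (lst m) : ℕ) (2 * m) with c1 | c1 <;>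
      rcases Nat.lt_or_ge (X'.1.1 (lst m) : ℕ) (2 * m) with c2 | c2
    · rw [Nat.mod_eq_of_lt c1, Nat.mod_eq_of_lt c2] at d1
      exact d1.symm
    · rw [Nat.mod_eq_of_lt c1, show (X'.1.1 (lst m) : ℕ) = 2 * m by omega, Nat.mod_self] at d1
      omega
    · rw [Nat.mod_eq_of_lt c2, show (X.1.1 (lst m) : ℕ) = 2 * m by omega, Nat.mod_self] at d1
      omega
    · omega
  have hl : X.1.1 (lst m) = X'.1.1 (lst m) := Fin.ext h3
  apply Subtype.ext
  apply Subtype.ext
  ext z : 1
  by_cases z1 : z = lst m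
  · rw [z1, hl]
  by_cases z2 : z = X.1.1 (lst m)
  · rw [z2, X.1.2.1]
    conv_rhs => rw [hl]
    rw [X'.1.2.1]
  · obtain ⟨b, hb1, hb2⟩ := ep_col (hy X).1 z1 (fun h => z2 (Fin.ext h))
    have h5 := emb_rem X.1.2.1 rfl (hy X).1 b
    have h6 := emb_rem X'.1.2.1 rfl (hy X').1 b
    have e1 : (⟨emb (X.1.1 (lst m)) b, emb_lt b.2⟩ : Fin (2 * (m + 1))) = z := hb2
    have e2 : (⟨emb (X'.1.1 (lst m)) b, emb_lt b.2⟩ : Fin (2 * (m + 1))) = z := by
      rw [← e1]
      apply Fin.ext
      simp only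
      rw [h3]
    rw [e1] at h5
    rw [e2] at h6
    rw [← h5, ← h6]
    apply Fin.ext
    simp only
    rw [h1, h3]

end Rem

/-! ### Rotation -/

section Rot

variable {n : ℕ}

lemma numVert_conj (σ : Equiv.Perm (Fin (2 * n))) :
    numVert ((finRotate (2 * n))⁻¹ * σ * finRotate (2 * n)) = numVert σ := by
  unfold numVert
  refine Nat.card_congr (Quot.congr (finRotate (2 * n)) ?_)
  intro a b
  have h : ∀ x, ((finRotate (2 * n))⁻¹ * σ * finRotate (2 * n)) x =
      (finRotate (2 * n)).symm (σ (finRotate (2 * n) x)) := fun x => rfl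
  rw [h, Equiv.apply_symm_apply]
  exact (finRotate (2 * n)).injective.eq_iff.symm

/-- rotation -/
noncomputable def rotO {g : ℕ} (X : Omega n g) : Omega n g :=
  ⟨(finRotate (2 * n))⁻¹ * X.1 * finRotate (2 * n), by
    intro x
    change (finRotate (2 * n)).symm (X.1 (finRotate (2 * n) ((finRotate (2 * n)).symm
      (X.1 (finRotate (2 * n) x))))) = x
    rw [Equiv.apply_symm_apply, X.2.1, Equiv.symm_apply_apply], by
    intro x hx
    have hx : (finRotate (2 * n)).symm (X.1 (finRotate (2 * n) x)) = x := hx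
    exact X.2.2.1 _ ((finRotate (2 * n)).symm_apply_eq.1 hx), by
    rw [numVert_conj]; exact X.2.2.2⟩

lemma rotO_inj {g : ℕ} : Function.Injective (rotO : Omega n g → Omega n g) := by
  intro X Y h
  have h1 : (finRotate (2 * n))⁻¹ * X.1 * finRotate (2 * n) =
      (finRotate (2 * n))⁻¹ * Y.1 * finRotate (2 * n) := congrArg Subtype.val h
  exact Subtype.ext (mul_left_cancel (mul_right_cancel h1))

lemma rotO_one {g : ℕ} (X : Omega n g) (x : Fin (2 * n)) (h : One X.1 (finRotate (2 * n) x)) :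
    One (rotO X).1 x := by
  have h1 : finRotate (2 * n) (X.1 (finRotate (2 * n) x)) = finRotate (2 * n) x := h
  change finRotate (2 * n) ((finRotate (2 * n)).symm (X.1 (finRotate (2 * n) x))) = x
  rw [Equiv.apply_symm_apply]
  exact (finRotate (2 * n)).injective h1

lemma rotO_two {g : ℕ} (X : Omega n g) (x : Fin (2 * n)) (h : Two X.1 (finRotate (2 * n) x)) :
    Two (rotO X).1 x := by
  obtain ⟨h1, h2⟩ := h
  have e1 : ∀ z, finRotate (2 * n) ((rotO X).1 z) = X.1 (finRotate (2 * n) z) := by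
    intro z
    change finRotate (2 * n) ((finRotate (2 * n)).symm (X.1 (finRotate (2 * n) z))) = _
    rw [Equiv.apply_symm_apply]
  constructor
  · rw [e1]
    intro h3
    exact h1 (by rw [h3])
  · rw [e1, e1]
    exact (finRotate (2 * n)).injective h2

lemma rot_iter (x : Fin (2 * n)) (k : ℕ) :
    ((finRotate (2 * n))^[k] x : ℕ) = (x + k) % (2 * n) := by
  induction k with
  | zero => simp [Nat.mod_eq_of_lt x.2]
  | succ k ih =>
    rw [Function.iterate_succ_apply', rot_val, ih, Nat.mod_add_mod]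
    rfl

lemma chain (f : Fin (2 * n) → ℕ) (h : ∀ x, f (finRotate (2 * n) x) ≤ f x)
    (x y : Fin (2 * n)) : f y ≤ f x := by
  have h1 : ∀ k, f ((finRotate (2 * n))^[k] x) ≤ f x := by
    intro k
    induction k with
    | zero => exact le_rfl
    | succ k ih =>
      rw [Function.iterate_succ_apply']
      exact (h _).trans ih
  have hx := x.2
  have hy := y.2
  have h2 : (finRotate (2 * n))^[y + 2 * n - x] x = y := by
    apply Fin.ext
    rw [rot_iter]
    rw [show (x : ℕ) + (y + 2 * n - x) = y + 2 * n by omega, Nat.add_mod_right,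
      Nat.mod_eq_of_lt hy]
  rw [← h2]
  exact h1 _

end Rot

lemma card_bound {n g : ℕ} (hn : 2 ≤ n) : Nat.card (Omega n g) * (2 * n + 6) ≤
    10 * n * Nat.card {X : Omega n g // X.1 ⟨2 * n - 2, by omega⟩ = ⟨2 * n - 1, by omega⟩} +
      Nat.card (Omega n g) * (12 * g) := by
  classical
  set A := Nat.card {X : Omega n g // X.1 ⟨2 * n - 2, by omega⟩ = ⟨2 * n - 1, by omega⟩} with hA
  have hone : ∀ x : Fin (2 * n),
      (Finset.univ.filter fun X : Omega n g => One X.1 x).card ≤ A := by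
    intro x
    have h1 := chain (fun x => (Finset.univ.filter fun X : Omega n g => One X.1 x).card)
      (fun x => by
        refine Finset.card_le_card_of_injOn rotO ?_ (fun _ _ _ _ h => rotO_inj h)
        intro X hX
        have hX := (Finset.mem_filter.1 hX).2
        simp only [Finset.coe_filter, Finset.mem_univ, true_and]
        exact rotO_one X x hX) ⟨2 * n - 1, by omega⟩ x
    refine h1.trans ?_
    rw [hA, Nat.card_eq_fintype_card, Fintype.card_subtype]
    refine Finset.card_le_card ?_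
    intro X hX
    have hX : One X.1 ⟨2 * n - 1, by omega⟩ := (Finset.mem_filter.1 hX).2
    refine Finset.mem_filter.2 ⟨Finset.mem_univ _, ?_⟩
    have h2 : finRotate (2 * n) (⟨2 * n - 2, by omega⟩ : Fin (2 * n)) =
        ⟨2 * n - 1, by omega⟩ := by
      apply Fin.ext
      rw [rot_val]
      simp only
      rw [Nat.mod_eq_of_lt (by omega)]
      omega
    have h3 : X.1 ⟨2 * n - 1, by omega⟩ = ⟨2 * n - 2, by omega⟩ :=
      (finRotate (2 * n)).injective (Eq.trans hX h2.symm)
    rw [← h3, X.2.1]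
  have htwo : ∀ x : Fin (2 * n),
      (Finset.univ.filter fun X : Omega n g => Two X.1 x).card ≤ A := by
    intro x
    have h1 := chain (fun x => (Finset.univ.filter fun X : Omega n g => Two X.1 x).card)
      (fun x => by
        refine Finset.card_le_card_of_injOn rotO ?_ (fun _ _ _ _ h => rotO_inj h)
        intro X hX
        have hX := (Finset.mem_filter.1 hX).2
        simp only [Finset.coe_filter, Finset.mem_univ, true_and]
        exact rotO_two X x hX) ⟨0, by omega⟩ x
    refine h1.trans ?_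
    obtain ⟨m, rfl⟩ : ∃ m, n = m + 1 := ⟨n - 1, by omega⟩
    have h2 := card_two_le (m := m) (by omega) g
    have h3 := card_le_add (m := m) (by omega) g
    rw [Nat.card_eq_fintype_card, Fintype.card_subtype] at h2
    exact h2.trans h3
  have hsum : ∑ X : Omega n g, 6 * numVert X.1 ≤ ∑ X : Omega n g, ∑ x,
      ((if One X.1 x then 4 else 0) + (if Two X.1 x then 1 else 0) + 2) :=
    Finset.sum_le_sum fun X _ => three_numVert X.1
  rw [Finset.sum_comm] at hsum
  have h4 : ∀ x : Fin (2 * n), ∑ X : Omega n g,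
      ((if One X.1 x then 4 else 0) + (if Two X.1 x then 1 else 0) + 2) ≤
        5 * A + 2 * Nat.card (Omega n g) := by
    intro x
    rw [Finset.sum_add_distrib, Finset.sum_add_distrib]
    have e1 : ∑ X : Omega n g, (if One X.1 x then 4 else 0) =
        4 * (Finset.univ.filter fun X : Omega n g => One X.1 x).card := by
      rw [← Finset.sum_filter, Finset.sum_const, smul_eq_mul, mul_comm]
    have e2 : ∑ X : Omega n g, (if Two X.1 x then 1 else 0) =
        (Finset.univ.filter fun X : Omega n g => Two X.1 x).card := by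
      rw [← Finset.sum_filter, Finset.sum_const, smul_eq_mul, mul_one]
    have e3 : ∑ _X : Omega n g, 2 = 2 * Nat.card (Omega n g) := by
      rw [Finset.sum_const, Finset.card_univ, smul_eq_mul, mul_comm, Nat.card_eq_fintype_card]
    rw [e1, e2, e3]
    have := hone x
    have := htwo x
    omega
  have h5 : ∑ x : Fin (2 * n), ∑ X : Omega n g,
      ((if One X.1 x then 4 else 0) + (if Two X.1 x then 1 else 0) + 2) ≤
        (2 * n) * (5 * A + 2 * Nat.card (Omega n g)) := by
    refine (Finset.sum_le_sum fun x _ => h4 x).trans ?_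
    rw [Finset.sum_const, Finset.card_univ, Fintype.card_fin, smul_eq_mul]
  have h6 : ∑ X : Omega n g, (6 * numVert X.1 + 12 * g) =
      Nat.card (Omega n g) * (6 * (n + 1)) := by
    have : ∀ X : Omega n g, 6 * numVert X.1 + 12 * g = 6 * (n + 1) := by
      intro X
      have := X.2.2.2
      omega
    rw [Finset.sum_congr rfl fun X _ => this X, Finset.sum_const, Finset.card_univ, smul_eq_mul,
      Nat.card_eq_fintype_card]
  have h7 : ∑ _X : Omega n g, 12 * g = Nat.card (Omega n g) * (12 * g) := by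
    rw [Finset.sum_const, Finset.card_univ, smul_eq_mul, Nat.card_eq_fintype_card]
  rw [Finset.sum_add_distrib, h7] at h6
  have h8 := hsum.trans h5
  nlinarith

lemma gap_le_two {n g : ℕ} (hn : 2 ≤ n) (h : 6 * g < n + 3) :
    gap n g ≤ 5 / (2 * (n - 1) * (n + 3 - 6 * g)) := by
  have h' : 2 * g < n := by omega
  obtain ⟨X, Y, h1, h2⟩ := exists_two hn h'
  have hgap := gap_le_of g _ _ ⟨X, h1⟩ ⟨Y, h2⟩
  have hb := card_bound (g := g) hn
  set A := Nat.card {X : Omega n g // X.1 ⟨2 * n - 2, by omega⟩ = ⟨2 * n - 1, by omega⟩} with hA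
  have hpos : 0 < A := Nat.card_pos_iff.2 ⟨⟨⟨X, h1⟩⟩, inferInstance⟩
  have hA' : (0 : ℝ) < A := by exact_mod_cast hpos
  have hn' : (2 : ℝ) ≤ n := by exact_mod_cast hn
  have hg' : (6 : ℝ) * g < n + 3 := by exact_mod_cast h
  have hb' : (Nat.card (Omega n g) : ℝ) * (2 * n + 6) ≤
      10 * n * A + Nat.card (Omega n g) * (12 * g) := by exact_mod_cast hb
  have hc : 1 / (4 * (n.choose 2 : ℝ)) = 1 / (2 * n * (n - 1)) := by
    rw [Nat.cast_choose_two]
    congr 1
    ring
  have hd1 : (0 : ℝ) < n - 1 := by linarith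
  have hd2 : (0 : ℝ) < n + 3 - 6 * g := by linarith
  refine hgap.trans ?_
  rw [hc, div_le_div_iff₀ hA' (by positivity)]
  have h3 : (Nat.card (Omega n g) : ℝ) * (n + 3 - 6 * g) ≤ 5 * n * A := by linarith
  have h4 : 1 / (2 * (n : ℝ) * (n - 1)) * (Nat.card (Omega n g) : ℝ) *
      (2 * (n - 1) * (n + 3 - 6 * g)) =
        (1 / n) * ((Nat.card (Omega n g) : ℝ) * (n + 3 - 6 * g)) := by
    field_simp
  rw [h4]
  have h5 : (1 / (n : ℝ)) * (5 * n * A) = 5 * A := by
    field_simp
  rw [← h5]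
  exact mul_le_mul_of_nonneg_left h3 (by positivity)

/-! ### Vertices of any degree -/

lemma rotO_semi {n g : ℕ} (X : Omega n g) (i : ℕ) (z : Fin (2 * n)) :
    finRotate (2 * n) ((tu (rotO X).1)^[i] z) = (tu X.1)^[i] (finRotate (2 * n) z) := by
  have e1 : Function.Semiconj (finRotate (2 * n)) (tu (rotO X).1) (tu X.1) := by
    intro z
    unfold tu
    congr 1
    change finRotate (2 * n) ((finRotate (2 * n)).symm (X.1 (finRotate (2 * n) z))) = _
    rw [Equiv.apply_symm_apply]
  exact e1.iterate_right i z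

lemma rotO_per {n g : ℕ} (X : Omega n g) (x : Fin (2 * n)) (k : ℕ)
    (h : Per X.1 (finRotate (2 * n) x) k ∧ Ent X.1 (finRotate (2 * n) x)) :
    Per (rotO X).1 x k ∧ Ent (rotO X).1 x := by
  obtain ⟨⟨h1, h2⟩, h3⟩ := h
  refine ⟨⟨?_, fun j hj hjk hcon => ?_⟩, fun hcon => ?_⟩
  · apply (finRotate (2 * n)).injective
    rw [rotO_semi, h1]
  · apply h2 j hj hjk
    rw [← rotO_semi, hcon]
  · apply h3
    have hr : ∀ a b, rl (rotO X).1 a b → Quot.mk (rl X.1) (finRotate (2 * n) a) =
        Quot.mk (rl X.1) (finRotate (2 * n) b) := by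
      intro a b hab
      have hab : b = tu (rotO X).1 a := hab
      refine Quot.sound ?_
      have := rotO_semi X 1 a
      rw [hab]
      exact this
    have h4 := congrArg (Quot.lift (fun a => Quot.mk (rl X.1) (finRotate (2 * n) a)) hr) hcon
    have h5 : Quot.mk (rl X.1) (finRotate (2 * n) ((finRotate (2 * n)).symm x)) =
        Quot.mk (rl X.1) (finRotate (2 * n) x) := h4
    rw [Equiv.apply_symm_apply] at h5
    rw [Equiv.symm_apply_apply]
    exact h5

lemma exists_ent {n : ℕ} (σ : Equiv.Perm (Fin (2 * n))) (hV : 2 ≤ numVert σ)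
    (q : Quot (rl σ)) : ∃ x, Quot.mk (rl σ) x = q ∧ Ent σ x := by
  by_contra hcon
  push Not at hcon
  have h1 : ∀ x, Quot.mk (rl σ) x = q →
      Quot.mk (rl σ) ((finRotate (2 * n)).symm x) = q := by
    intro x hx
    have := hcon x hx
    unfold Ent at this
    push Not at this
    rw [this, hx]
  have h2 : ∀ i y, Quot.mk (rl σ) ((finRotate (2 * n))^[i] y) = q → Quot.mk (rl σ) y = q := by
    intro i
    induction i with
    | zero => intro y hy; exact hy
    | succ i ih =>
      intro y hy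
      rw [Function.iterate_succ_apply] at hy
      have h3 := h1 _ (ih _ hy)
      rw [Equiv.symm_apply_apply] at h3
      exact h3
  have h4 : ∀ y, Quot.mk (rl σ) y = q := by
    intro y
    induction q using Quot.ind with
    | mk x =>
      apply h2 (x + 2 * n - y)
      congr 1
      have hx := x.2
      have hy := y.2
      apply Fin.ext
      rw [rot_iter]
      rw [show (y : ℕ) + (x + 2 * n - y) = x + 2 * n by omega, Nat.add_mod_right,
        Nat.mod_eq_of_lt hx]
  have h5 : Subsingleton (Quot (rl σ)) := by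
    constructor
    intro a b
    induction a using Quot.ind with
    | mk a =>
      induction b using Quot.ind with
      | mk b => rw [h4 a, h4 b]
  have h6 : Nat.card (Quot (rl σ)) ≤ 1 := by
    rw [Finite.card_le_one_iff_subsingleton]
    exact h5
  have h7 : numVert σ = Nat.card (Quot (rl σ)) := rfl
  omega

open scoped Classical in
lemma many_numVert {n : ℕ} (σ : Equiv.Perm (Fin (2 * n))) (hV : 2 ≤ numVert σ) (K : ℕ) :
    (K + 1) * numVert σ ≤ ∑ x, (∑ k ∈ Finset.range K,
      (if Per σ x (k + 1) ∧ Ent σ x then K - k else 0) + 1) := by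
  have : Fintype (Quot (rl σ)) := Fintype.ofFinite _
  have h1 : numVert σ = Fintype.card (Quot (rl σ)) :=
    (show numVert σ = Nat.card (Quot (rl σ)) from rfl).trans Nat.card_eq_fintype_card
  set w : Fin (2 * n) → ℕ := fun x => ∑ k ∈ Finset.range K,
      (if Per σ x (k + 1) ∧ Ent σ x then K - k else 0) with hw
  rw [h1, ← Finset.sum_fiberwise (s := Finset.univ) (g := fun x => Quot.mk (rl σ) x)
    (f := fun x => w x + 1)]
  have h2 : ∀ q : Quot (rl σ), K + 1 ≤ ∑ x ∈ Finset.univ.filter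
      (fun x => Quot.mk (rl σ) x = q), (w x + 1) := by
    intro q
    obtain ⟨x, hx, hE⟩ := exists_ent σ hV q
    subst hx
    set c := Finset.univ.filter (fun z => Quot.mk (rl σ) z = Quot.mk (rl σ) x) with hc
    have m0 : x ∈ c := by simp [hc]
    set p := Function.minimalPeriod (tu σ) x with hp
    have hp0 : 0 < p := Function.minimalPeriod_pos_of_mem_periodicPts
      ((tu_inj σ).mem_periodicPts x)
    have hcl : ∀ i, (tu σ)^[i] x ∈ c := by
      intro i
      induction i with
      | zero => exact m0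
      | succ i ih =>
        rw [hc, Finset.mem_filter] at ih ⊢
        refine ⟨Finset.mem_univ _, ?_⟩
        rw [← ih.2, Function.iterate_succ_apply']
        exact (Quot.sound (show rl σ _ (tu σ _) from rfl)).symm
    have hpc : p ≤ c.card := by
      have h3 : (Finset.range p).card ≤ c.card := by
        refine Finset.card_le_card_of_injOn (fun i => (tu σ)^[i] x) (fun i _ => hcl i) ?_
        intro i hi j hj hij
        have hi := Finset.mem_range.1 hi
        have hj := Finset.mem_range.1 hj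
        exact Function.iterate_injOn_Iio_minimalPeriod hi hj hij
      rwa [Finset.card_range] at h3
    rw [Finset.sum_add_distrib, Finset.sum_const, smul_eq_mul, mul_one]
    rcases Nat.lt_or_ge K p with h3 | h3
    · omega
    · have hPer : Per σ x (p - 1 + 1) := by
        rw [show p - 1 + 1 = p by omega]
        refine ⟨Function.iterate_minimalPeriod, fun j hj hjp hcon => ?_⟩
        exact Function.not_isPeriodicPt_of_pos_of_lt_minimalPeriod (by omega) hjp hcon
      have h4 : K - (p - 1) ≤ w x := by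
        rw [hw]
        refine le_trans ?_ (Finset.single_le_sum (fun _ _ => Nat.zero_le _)
          (Finset.mem_range.2 (show p - 1 < K by omega)))
        rw [if_pos ⟨hPer, hE⟩]
      have h5 : w x ≤ ∑ z ∈ c, w z := Finset.single_le_sum (fun _ _ => Nat.zero_le _) m0
      omega
  calc (K + 1) * Fintype.card (Quot (rl σ)) = ∑ _q : Quot (rl σ), (K + 1) := by
        rw [Finset.sum_const, Finset.card_univ, smul_eq_mul, mul_comm]
    _ ≤ _ := Finset.sum_le_sum fun q _ => h2 q

lemma sum_range_sub (K : ℕ) : 2 * ∑ k ∈ Finset.range K, (K - k) = K * (K + 1) := by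
  induction K with
  | zero => simp
  | succ K ih =>
    have h1 : ∑ k ∈ Finset.range (K + 1), (K + 1 - k) =
        (∑ k ∈ Finset.range K, (K - k)) + (K + 1) := by
      rw [Finset.sum_range_succ']
      simp only [Nat.add_sub_add_right, Nat.sub_zero]
    rw [h1, mul_add, ih]
    ring

lemma card_bound_gen {n g : ℕ} (hn : 2 ≤ n) (hg : 2 * g < n) (K : ℕ) :
    Nat.card (Omega n g) * ((K + 1) * (n + 1)) ≤
      n * K * (K + 1) * Nat.card {X : Omega n g // X.1 ⟨2 * n - 2, by omega⟩ =
        ⟨2 * n - 1, by omega⟩} + Nat.card (Omega n g) * (2 * n + (K + 1) * (2 * g)) := by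
  classical
  set A := Nat.card {X : Omega n g // X.1 ⟨2 * n - 2, by omega⟩ = ⟨2 * n - 1, by omega⟩} with hA
  have hone : ∀ x : Fin (2 * n),
      (Finset.univ.filter fun X : Omega n g => One X.1 x).card ≤ A := by
    intro x
    have h1 := chain (fun x => (Finset.univ.filter fun X : Omega n g => One X.1 x).card)
      (fun x => by
        refine Finset.card_le_card_of_injOn rotO ?_ (fun _ _ _ _ h => rotO_inj h)
        intro X hX
        have hX := (Finset.mem_filter.1 hX).2
        simp only [Finset.coe_filter, Finset.mem_univ, true_and]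
        exact rotO_one X x hX) ⟨2 * n - 1, by omega⟩ x
    refine h1.trans ?_
    rw [hA, Nat.card_eq_fintype_card, Fintype.card_subtype]
    refine Finset.card_le_card ?_
    intro X hX
    have hX : One X.1 ⟨2 * n - 1, by omega⟩ := (Finset.mem_filter.1 hX).2
    refine Finset.mem_filter.2 ⟨Finset.mem_univ _, ?_⟩
    have h2 : finRotate (2 * n) (⟨2 * n - 2, by omega⟩ : Fin (2 * n)) =
        ⟨2 * n - 1, by omega⟩ := by
      apply Fin.ext
      rw [rot_val]
      simp only
      rw [Nat.mod_eq_of_lt (by omega)]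
      omega
    have h3 : X.1 ⟨2 * n - 1, by omega⟩ = ⟨2 * n - 2, by omega⟩ :=
      (finRotate (2 * n)).injective (Eq.trans hX h2.symm)
    rw [← h3, X.2.1]
  have hper : ∀ (k : ℕ) (x : Fin (2 * n)), (Finset.univ.filter fun X : Omega n g =>
      Per X.1 x (k + 1) ∧ Ent X.1 x).card ≤ A := by
    intro k x
    rcases k with _ | k
    · refine le_trans (Finset.card_le_card ?_) (hone x)
      intro X hX
      have hX := (Finset.mem_filter.1 hX).2
      exact Finset.mem_filter.2 ⟨Finset.mem_univ _, hX.1.1⟩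
    · have h1 := chain (fun x => (Finset.univ.filter fun X : Omega n g =>
          Per X.1 x (k + 1 + 1) ∧ Ent X.1 x).card)
        (fun x => by
          refine Finset.card_le_card_of_injOn rotO ?_ (fun _ _ _ _ h => rotO_inj h)
          intro X hX
          have hX := (Finset.mem_filter.1 hX).2
          simp only [Finset.coe_filter, Finset.mem_univ, true_and]
          exact rotO_per X x _ hX) ⟨0, by omega⟩ x
      refine h1.trans ?_
      obtain ⟨m, rfl⟩ : ∃ m, n = m + 1 := ⟨n - 1, by omega⟩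
      have h2 := card_per_le (m := m) (by omega) g (k + 1 + 1) (by omega)
      have h3 := card_le_add (m := m) (by omega) g
      rw [Nat.card_eq_fintype_card, Fintype.card_subtype] at h2
      exact h2.trans h3
  have hsum : ∑ X : Omega n g, (K + 1) * numVert X.1 ≤ ∑ X : Omega n g, ∑ x,
      (∑ k ∈ Finset.range K, (if Per X.1 x (k + 1) ∧ Ent X.1 x then K - k else 0) + 1) := by
    refine Finset.sum_le_sum fun X _ => many_numVert X.1 ?_ K
    have := X.2.2.2
    omega
  rw [Finset.sum_comm] at hsum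
  have h4 : ∀ x : Fin (2 * n), 2 * ∑ X : Omega n g, (∑ k ∈ Finset.range K,
      (if Per X.1 x (k + 1) ∧ Ent X.1 x then K - k else 0) + 1) ≤
        K * (K + 1) * A + 2 * Nat.card (Omega n g) := by
    intro x
    rw [Finset.sum_add_distrib, Finset.sum_comm, mul_add]
    have e1 : ∀ k, ∑ X : Omega n g, (if Per X.1 x (k + 1) ∧ Ent X.1 x then K - k else 0) ≤
        (K - k) * A := by
      intro k
      rw [← Finset.sum_filter, Finset.sum_const, smul_eq_mul, mul_comm]
      exact Nat.mul_le_mul_left _ (hper k x)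
    have e2 : ∑ k ∈ Finset.range K, ∑ X : Omega n g,
        (if Per X.1 x (k + 1) ∧ Ent X.1 x then K - k else 0) ≤
          (∑ k ∈ Finset.range K, (K - k)) * A := by
      rw [Finset.sum_mul]
      exact Finset.sum_le_sum fun k _ => e1 k
    have e3 : ∑ _X : Omega n g, 1 = Nat.card (Omega n g) := by
      rw [Finset.sum_const, Finset.card_univ, smul_eq_mul, mul_one, Nat.card_eq_fintype_card]
    rw [e3]
    have e4 := Nat.mul_le_mul_left 2 e2
    rw [← mul_assoc, sum_range_sub] at e4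
    omega
  have h5 : 2 * ∑ x : Fin (2 * n), ∑ X : Omega n g, (∑ k ∈ Finset.range K,
      (if Per X.1 x (k + 1) ∧ Ent X.1 x then K - k else 0) + 1) ≤
        (2 * n) * (K * (K + 1) * A + 2 * Nat.card (Omega n g)) := by
    rw [Finset.mul_sum]
    refine (Finset.sum_le_sum fun x _ => h4 x).trans ?_
    rw [Finset.sum_const, Finset.card_univ, Fintype.card_fin, smul_eq_mul]
  have h6 : ∑ X : Omega n g, ((K + 1) * numVert X.1 + (K + 1) * (2 * g)) =
      Nat.card (Omega n g) * ((K + 1) * (n + 1)) := by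
    have : ∀ X : Omega n g, (K + 1) * numVert X.1 + (K + 1) * (2 * g) = (K + 1) * (n + 1) := by
      intro X
      rw [← mul_add, X.2.2.2]
    rw [Finset.sum_congr rfl fun X _ => this X, Finset.sum_const, Finset.card_univ, smul_eq_mul,
      Nat.card_eq_fintype_card]
  have h7 : ∑ _X : Omega n g, (K + 1) * (2 * g) = Nat.card (Omega n g) * ((K + 1) * (2 * g)) := by
    rw [Finset.sum_const, Finset.card_univ, smul_eq_mul, Nat.card_eq_fintype_card]
  rw [Finset.sum_add_distrib, h7] at h6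
  have h8 := (Nat.mul_le_mul_left 2 hsum).trans h5
  rw [← h6]
  have h9 : 2 * (∑ X : Omega n g, (K + 1) * numVert X.1) ≤
      2 * (n * K * (K + 1) * A + Nat.card (Omega n g) * (2 * n)) := by
    refine h8.trans (le_of_eq ?_)
    ring
  have h10 := Nat.le_of_mul_le_mul_left h9 (by norm_num)
  rw [mul_add (Nat.card (Omega n g))]
  omega

lemma gap_le_gen {n g : ℕ} (hn : 2 ≤ n) (h : 2 * g < n) (K : ℕ)
    (hK : (2 * n : ℝ) < (K + 1) * (n + 1 - 2 * g)) :
    gap n g ≤ K * (K + 1) / (2 * (n - 1) * ((K + 1) * (n + 1 - 2 * g) - 2 * n)) := by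
  obtain ⟨X, Y, h1, h2⟩ := exists_two hn h
  have hgap := gap_le_of g _ _ ⟨X, h1⟩ ⟨Y, h2⟩
  have hb := card_bound_gen hn h K
  set A := Nat.card {X : Omega n g // X.1 ⟨2 * n - 2, by omega⟩ = ⟨2 * n - 1, by omega⟩} with hA
  have hpos : 0 < A := Nat.card_pos_iff.2 ⟨⟨⟨X, h1⟩⟩, inferInstance⟩
  have hA' : (0 : ℝ) < A := by exact_mod_cast hpos
  have hn' : (2 : ℝ) ≤ n := by exact_mod_cast hn
  have hb' : (Nat.card (Omega n g) : ℝ) * ((K + 1) * (n + 1)) ≤
      n * K * (K + 1) * A + Nat.card (Omega n g) * (2 * n + (K + 1) * (2 * g)) := by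
    exact_mod_cast hb
  have hc : 1 / (4 * (n.choose 2 : ℝ)) = 1 / (2 * n * (n - 1)) := by
    rw [Nat.cast_choose_two]
    congr 1
    ring
  have hd1 : (0 : ℝ) < n - 1 := by linarith
  set D : ℝ := (K + 1) * (n + 1 - 2 * g) - 2 * n with hD
  have hd2 : (0 : ℝ) < D := by rw [hD]; linarith
  refine hgap.trans ?_
  rw [hc, div_le_div_iff₀ hA' (by positivity)]
  have h3 : (Nat.card (Omega n g) : ℝ) * D ≤ n * (K * (K + 1)) * A := by
    rw [hD]
    linarith
  have h4 : 1 / (2 * (n : ℝ) * (n - 1)) * (Nat.card (Omega n g) : ℝ) * (2 * (n - 1) * D) =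
        (1 / n) * ((Nat.card (Omega n g) : ℝ) * D) := by
    field_simp
  rw [h4]
  have h5 : (1 / (n : ℝ)) * (n * (K * (K + 1)) * A) = K * (K + 1) * A := by
    field_simp
  rw [← h5]
  exact mul_le_mul_of_nonneg_left h3 (by positivity)

lemma gap_theta (θ : ℝ) (hθ : θ < 1 / 2) : ∃ C : ℝ, ∀ n g : ℕ, 2 ≤ n → (g : ℝ) ≤ θ * n →
    gap n g ≤ C / n ^ 2 := by
  obtain ⟨K, hK⟩ := exists_nat_ge (4 / (1 - 2 * θ))
  have h0 : 0 < 1 - 2 * θ := by linarith
  rw [div_le_iff₀ h0] at hK
  refine ⟨K * (K + 1) / 2, fun n g hn hg => ?_⟩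
  have hn' : (2 : ℝ) ≤ n := by exact_mod_cast hn
  have hg2 : (2 * g : ℝ) < n := by nlinarith
  have hg' : 2 * g < n := by exact_mod_cast hg2
  have h1 : (2 * n : ℝ) ≤ (K + 1) * (n + 1 - 2 * g) - 2 * n := by
    have h2 : (1 - 2 * θ) * n ≤ n + 1 - 2 * g := by linarith
    have h3 : ((K : ℝ) + 1) * ((1 - 2 * θ) * n) ≤ (K + 1) * (n + 1 - 2 * g) :=
      mul_le_mul_of_nonneg_left h2 (by positivity)
    have h4 : 4 * (n : ℝ) ≤ K * (1 - 2 * θ) * n :=
      mul_le_mul_of_nonneg_right hK (by linarith)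
    nlinarith
  refine (gap_le_gen hn hg' K (by linarith)).trans ?_
  have h5 : (n : ℝ) ^ 2 * 2 ≤ 2 * (n - 1) * ((K + 1) * (n + 1 - 2 * g) - 2 * n) := by
    have h6 : (n : ℝ) ≤ 2 * (n - 1) := by linarith
    have h7 : (n : ℝ) * (2 * n) ≤ 2 * (n - 1) * ((K + 1) * (n + 1 - 2 * g) - 2 * n) :=
      mul_le_mul h6 h1 (by positivity) (by linarith)
    nlinarith
  have h8 : (K : ℝ) * (K + 1) / 2 / n ^ 2 = K * (K + 1) / (n ^ 2 * 2) := by
    rw [div_div, mul_comm]
    ring_nf
  rw [h8]
  exact div_le_div_of_nonneg_left (by positivity) (by positivity) h5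

end Pool.Agent.CSWAP
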